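import Mathlib

set_option autoImplicit false
set_option linter.unusedSectionVars false

open scoped RealInnerProductSpace

/-! The trace of the Clifford algebra of a real inner product space. -/

namespace Run7.h31.Inv

open CliffordAlgebra

variable {H : Type*} [NormedAddCommGroup H] [InnerProductSpace ℝ H]

/-- the quadratic form `⟪x, x⟫` -/
noncomputable def QH (H : Type*) [NormedAddCommGroup H] [InnerProductSpace ℝ H] :
    QuadraticForm ℝ H := LinearMap.BilinMap.toQuadraticMap (innerₗ H)

/-- the Clifford algebra -/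
abbrev Cl (H : Type*) [NormedAddCommGroup H] [InnerProductSpace ℝ H] := CliffordAlgebra (QH H)

theorem QH_apply (x : H) : QH H x = ⟪x, x⟫ := rfl

/-- the vector as an element of the Clifford algebra -/
noncomputable abbrev cv (x : H) : Cl H := ι (QH H) x

theorem cv_mul_self (x : H) : cv x * cv x = algebraMap ℝ (Cl H) (⟪x, x⟫) := ι_sq_scalar _ x

theorem cv_swap (a b : H) : cv a * cv b = algebraMap ℝ (Cl H) (2 * ⟪a, b⟫) - cv b * cv a := by
  have h := ι_mul_ι_add_swap (Q := QH H) a b
  rw [eq_sub_iff_add_eq, h]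
  congr 1
  rw [QuadraticMap.polar, QH_apply, QH_apply, QH_apply, real_inner_add_add_self]
  ring

/-- contraction with a vector -/
noncomputable def ct (a : H) : Cl H →ₗ[ℝ] Cl H := contractLeft (innerₗ H a)

theorem ct_mul (a m : H) (y : Cl H) : ct a (cv m * y) = ⟪a, m⟫ • y - cv m * ct a y :=
  contractLeft_ι_mul (innerₗ H a) m y

theorem ct_algebraMap (a : H) (r : ℝ) : ct a (algebraMap ℝ (Cl H) r) = 0 :=
  contractLeft_algebraMap (QH H) (d := innerₗ H a) r

theorem ct_ct (a : H) (x : Cl H) : ct a (ct a x) = 0 := contractLeft_contractLeft (innerₗ H a) x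

theorem ct_comm (a b : H) (x : Cl H) : ct a (ct b x) = - ct b (ct a x) :=
  contractLeft_comm (innerₗ H a) (innerₗ H b) x

/-- the Leibniz rule -/
theorem ct_leibniz (a : H) (x y : Cl H) : ct a (x * y) = ct a x * y + involute x * ct a y := by
  induction x using CliffordAlgebra.left_induction with
  | algebraMap r =>
    rw [ct_algebraMap, zero_mul, zero_add, AlgHom.commutes, ← Algebra.smul_def, map_smul,
      Algebra.smul_def]
  | add x x' hx hx' => rw [add_mul, map_add, hx, hx', map_add, map_add, add_mul, add_mul]; abel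
  | ι_mul x m hx =>
    change ct a (cv m * x * y) = ct a (cv m * x) * y + involute (cv m * x) * ct a y
    rw [mul_assoc, ct_mul, hx, ct_mul, map_mul, involute_ι, sub_mul, smul_mul_assoc, mul_add,
      mul_assoc, neg_mul, neg_mul, mul_assoc]
    abel

/-- commutation with a vector -/
theorem cv_mul (a : H) (x : Cl H) : cv a * x = involute x * cv a + (2 : ℝ) • ct a x := by
  induction x using CliffordAlgebra.left_induction with
  | algebraMap r =>
    rw [ct_algebraMap, smul_zero, add_zero, AlgHom.commutes, Algebra.commutes]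
  | add x x' hx hx' => rw [mul_add, hx, hx', map_add, map_add, add_mul, smul_add]; abel
  | ι_mul x m hx =>
    change cv a * (cv m * x) = involute (cv m * x) * cv a + (2 : ℝ) • ct a (cv m * x)
    rw [← mul_assoc, cv_swap, sub_mul, mul_assoc, hx, map_mul involute, involute_ι, ct_mul,
      mul_add, smul_sub, smul_smul, ← Algebra.smul_def, neg_mul, neg_mul, mul_smul_comm,
      ← mul_assoc]
    abel

theorem ct_involute (a : H) (x : Cl H) : ct a (involute x) = - involute (ct a x) := by
  induction x using CliffordAlgebra.left_induction with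
  | algebraMap r => rw [AlgHom.commutes, ct_algebraMap, map_zero, neg_zero]
  | add x x' hx hx' => rw [map_add, map_add, hx, hx', map_add, map_add]; abel
  | ι_mul x m hx =>
    change ct a (involute (cv m * x)) = - involute (ct a (cv m * x))
    rw [map_mul, involute_ι, neg_mul, map_neg, ct_mul, hx, ct_mul, map_sub, map_mul, involute_ι,
      map_smul, mul_neg, neg_mul]

theorem proof0 (H : Type*) [NormedAddCommGroup H] [InnerProductSpace ℝ H] :
    LinearMap.BilinMap.toQuadraticMap (-(innerₗ H)) = 0 - QH H := by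
  ext x
  change -⟪x, x⟫ = 0 - ⟪x, x⟫
  rw [zero_sub]

/-- the symbol -/
noncomputable def sy : Cl H →ₗ[ℝ] ExteriorAlgebra ℝ H := changeForm (proof0 H)

/-- the trace -/
noncomputable def tc : Cl H →ₗ[ℝ] ℝ := ExteriorAlgebra.algebraMapInv.toLinearMap ∘ₗ sy

theorem tc_algebraMap (r : ℝ) : tc (algebraMap ℝ (Cl H) r) = r := by
  change ExteriorAlgebra.algebraMapInv (changeForm (proof0 H) (algebraMap ℝ (Cl H) r)) = r
  rw [changeForm_algebraMap]
  exact ExteriorAlgebra.algebraMap_leftInverse H r

theorem tc_one : tc (1 : Cl H) = 1 := by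
  have h := tc_algebraMap (H := H) 1
  rwa [map_one] at h

theorem inv_ι (m : H) : (ExteriorAlgebra.algebraMapInv : ExteriorAlgebra ℝ H →ₐ[ℝ] ℝ)
    (ExteriorAlgebra.ι ℝ m) = 0 := by
  unfold ExteriorAlgebra.algebraMapInv
  rw [ExteriorAlgebra.lift_ι_apply]
  rfl

theorem tc_cv_mul (a : H) (x : Cl H) : tc (cv a * x) = tc (ct a x) := by
  change ExteriorAlgebra.algebraMapInv (changeForm (proof0 H) (ι (QH H) a * x)) =
    ExteriorAlgebra.algebraMapInv (changeForm (proof0 H) (contractLeft (innerₗ H a) x))
  rw [changeForm_ι_mul, changeForm_contractLeft, map_sub, map_mul]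
  have h1 : (ExteriorAlgebra.algebraMapInv : ExteriorAlgebra ℝ H →ₐ[ℝ] ℝ)
      ((ι (0 : QuadraticForm ℝ H)) a) = 0 := inv_ι a
  rw [h1, zero_mul, zero_sub, ← map_neg]
  congr 1
  rw [LinearMap.neg_apply, map_neg, LinearMap.neg_apply, neg_neg]

section general
variable {M : Type*} [AddCommGroup M] [Module ℝ M]

theorem contract_involute (Q : QuadraticForm ℝ M) (d : Module.Dual ℝ M) (x : CliffordAlgebra Q) :
    contractLeft d (involute x) = - involute (contractLeft d x) := by
  induction x using CliffordAlgebra.left_induction with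
  | algebraMap r =>
    rw [AlgHom.commutes, contractLeft_algebraMap, map_zero, neg_zero]
  | add x x' hx hx' => rw [map_add, map_add, hx, hx', map_add, map_add]; abel
  | ι_mul x m hx =>
    rw [map_mul, involute_ι, neg_mul, map_neg, contractLeft_ι_mul, hx, contractLeft_ι_mul,
      map_sub, map_mul, involute_ι, map_smul, mul_neg, neg_mul]

end general

theorem sy_cv_mul (a : H) (x : Cl H) :
    sy (cv a * x) = ι (0 : QuadraticForm ℝ H) a * sy x + contractLeft (innerₗ H a) (sy x) := by
  change changeForm (proof0 H) (ι (QH H) a * x) = _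
  rw [changeForm_ι_mul, LinearMap.neg_apply, map_neg, LinearMap.neg_apply, sub_neg_eq_add]
  rfl

theorem sy_algebraMap (r : ℝ) :
    sy (algebraMap ℝ (Cl H) r) = algebraMap ℝ (CliffordAlgebra (0 : QuadraticForm ℝ H)) r :=
  changeForm_algebraMap (proof0 H) r

theorem sy_involute (x : Cl H) :
    sy (involute x) = (involute (sy x : CliffordAlgebra (0 : QuadraticForm ℝ H))) := by
  induction x using CliffordAlgebra.left_induction with
  | algebraMap r => rw [AlgHom.commutes, sy_algebraMap, AlgHom.commutes]
  | add x x' hx hx' => rw [map_add, map_add, hx, hx', map_add, map_add]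
  | ι_mul x m hx =>
    change sy (involute (cv m * x)) = involute (sy (cv m * x))
    rw [map_mul, involute_ι, neg_mul, map_neg, sy_cv_mul, hx, sy_cv_mul, map_add, map_mul,
      involute_ι, contract_involute, neg_mul]
    abel

theorem tc_involute (x : Cl H) : tc (involute x) = tc x := by
  change ExteriorAlgebra.algebraMapInv (sy (involute x)) = ExteriorAlgebra.algebraMapInv (sy x)
  rw [sy_involute]
  have h : (ExteriorAlgebra.algebraMapInv : ExteriorAlgebra ℝ H →ₐ[ℝ] ℝ).comp
      (involute (Q := (0 : QuadraticForm ℝ H))) = ExteriorAlgebra.algebraMapInv := by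
    apply CliffordAlgebra.hom_ext
    ext m
    change ExteriorAlgebra.algebraMapInv (involute (ι (0 : QuadraticForm ℝ H) m)) =
      ExteriorAlgebra.algebraMapInv (ι (0 : QuadraticForm ℝ H) m)
    rw [involute_ι, map_neg]
    have h1 : (ExteriorAlgebra.algebraMapInv : ExteriorAlgebra ℝ H →ₐ[ℝ] ℝ)
      ((ι (0 : QuadraticForm ℝ H)) m) = 0 := inv_ι m
    rw [h1, neg_zero]
  exact congrArg (fun f : ExteriorAlgebra ℝ H →ₐ[ℝ] ℝ => f (sy x)) h

theorem tc_mul_cv (a : H) (x : Cl H) : tc (x * cv a) = tc (cv a * x) := by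
  have h := cv_mul a (involute x)
  rw [involute_involute] at h
  have h1 : x * cv a = cv a * involute x - (2 : ℝ) • ct a (involute x) := by
    rw [h]; abel
  rw [h1, map_sub, map_smul, tc_cv_mul, tc_cv_mul, ct_involute, map_neg, tc_involute, smul_eq_mul]
  ring

/-- the trace property -/
theorem tc_comm (x y : Cl H) : tc (x * y) = tc (y * x) := by
  induction x using CliffordAlgebra.left_induction generalizing y with
  | algebraMap r => rw [Algebra.commutes]
  | add x x' hx hx' => rw [add_mul, mul_add, map_add, map_add, hx, hx']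
  | ι_mul x m hx =>
    change tc (cv m * x * y) = tc (y * (cv m * x))
    rw [mul_assoc, ← tc_mul_cv, mul_assoc, hx, mul_assoc]

section isometry

/-- the automorphism of the Clifford algebra given by an isometry -/
noncomputable def al (f : H ≃ₗᵢ[ℝ] H) : Cl H →ₐ[ℝ] Cl H :=
  CliffordAlgebra.map (Q₁ := QH H) (Q₂ := QH H)
    { f.toLinearEquiv.toLinearMap with
      map_app' := fun m => by
        change ⟪f m, f m⟫ = ⟪m, m⟫
        exact f.inner_map_map m m }

theorem al_cv (f : H ≃ₗᵢ[ℝ] H) (x : H) : al f (cv x) = cv (f x) :=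
  CliffordAlgebra.map_apply_ι _ x

theorem ext_contract (f : H ≃ₗᵢ[ℝ] H) (a : H) (y : ExteriorAlgebra ℝ H) :
    contractLeft (innerₗ H (f a)) (ExteriorAlgebra.map f.toLinearEquiv.toLinearMap y)
      = ExteriorAlgebra.map f.toLinearEquiv.toLinearMap (contractLeft (innerₗ H a) y) := by
  induction y using CliffordAlgebra.left_induction with
  | algebraMap r =>
    rw [AlgHom.commutes, contractLeft_algebraMap, contractLeft_algebraMap, map_zero]
  | add x x' hx hx' => simp only [map_add, hx, hx']
  | ι_mul x m hx =>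
    have e : ExteriorAlgebra.map f.toLinearEquiv.toLinearMap (ι (0 : QuadraticForm ℝ H) m)
        = ι (0 : QuadraticForm ℝ H) (f m) := ExteriorAlgebra.map_apply_ι _ m
    have e2 : (innerₗ H (f a)) (f m) = (innerₗ H a) m := f.inner_map_map a m
    rw [map_mul, e, contractLeft_ι_mul, hx, contractLeft_ι_mul, map_sub, map_mul, e, e2, map_smul]

theorem sy_al (f : H ≃ₗᵢ[ℝ] H) (x : Cl H) :
    sy (al f x) = ExteriorAlgebra.map f.toLinearEquiv.toLinearMap (sy x) := by
  induction x using CliffordAlgebra.left_induction with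
  | algebraMap r =>
    rw [AlgHom.commutes, sy_algebraMap]
    exact (AlgHom.commutes _ _).symm
  | add x x' hx hx' => simp only [map_add, hx, hx']
  | ι_mul x m hx =>
    have e : ExteriorAlgebra.map f.toLinearEquiv.toLinearMap (ι (0 : QuadraticForm ℝ H) m)
        = ι (0 : QuadraticForm ℝ H) (f m) := ExteriorAlgebra.map_apply_ι _ m
    change sy (al f (cv m * x)) = _
    rw [map_mul, al_cv, sy_cv_mul, hx, ext_contract]
    change _ = ExteriorAlgebra.map f.toLinearEquiv.toLinearMap (sy (cv m * x))
    rw [sy_cv_mul, map_add, map_mul, e]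

theorem tc_al (f : H ≃ₗᵢ[ℝ] H) (x : Cl H) : tc (al f x) = tc x := by
  change ExteriorAlgebra.algebraMapInv (sy (al f x)) = ExteriorAlgebra.algebraMapInv (sy x)
  rw [sy_al]
  have h : (ExteriorAlgebra.algebraMapInv : ExteriorAlgebra ℝ H →ₐ[ℝ] ℝ).comp
      (ExteriorAlgebra.map f.toLinearEquiv.toLinearMap) = ExteriorAlgebra.algebraMapInv := by
    apply CliffordAlgebra.hom_ext
    ext m
    have e : ExteriorAlgebra.map f.toLinearEquiv.toLinearMap (ι (0 : QuadraticForm ℝ H) m)
        = ι (0 : QuadraticForm ℝ H) (f m) := ExteriorAlgebra.map_apply_ι _ m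
    change ExteriorAlgebra.algebraMapInv (ExteriorAlgebra.map f.toLinearEquiv.toLinearMap
      (ι (0 : QuadraticForm ℝ H) m)) = ExteriorAlgebra.algebraMapInv (ι (0 : QuadraticForm ℝ H) m)
    rw [e]
    exact (inv_ι (f m)).trans (inv_ι m).symm
  exact congrArg (fun f : ExteriorAlgebra ℝ H →ₐ[ℝ] ℝ => f (sy x)) h

end isometry

section positive

/-- the subalgebra generated by some vectors -/
noncomputable def As {I : Type*} (e : I → H) (s : Finset I) : Subalgebra ℝ (Cl H) :=
  Algebra.adjoin ℝ ((fun i => cv (e i)) '' (s : Set I))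

theorem ct_As {I : Type*} (e : I → H) (s : Finset I) (a : H) (ha : ∀ i ∈ s, ⟪a, e i⟫ = 0)
    (x : Cl H) (hx : x ∈ As e s) : ct a x = 0 := by
  induction hx using Algebra.adjoin_induction with
  | mem x hx =>
    obtain ⟨i, hi, rfl⟩ := hx
    have h := ct_mul a (e i) 1
    rw [mul_one] at h
    change ct a (cv (e i)) = 0
    have h1 : ct a (1 : Cl H) = 0 := by
      have := ct_algebraMap a 1
      rwa [map_one] at this
    rw [h, ha i hi, h1, zero_smul, mul_zero, sub_zero]
  | algebraMap r => exact ct_algebraMap a r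
  | add x y _ _ hx hy => rw [map_add, hx, hy, add_zero]
  | mul x y _ _ hx hy => rw [ct_leibniz, hx, hy, zero_mul, mul_zero, add_zero]

theorem involute_As {I : Type*} (e : I → H) (s : Finset I) (x : Cl H) (hx : x ∈ As e s) :
    involute x ∈ As e s := by
  induction hx using Algebra.adjoin_induction with
  | mem x hx =>
    obtain ⟨i, hi, rfl⟩ := hx
    change involute (cv (e i)) ∈ _
    rw [involute_ι]
    exact Subalgebra.neg_mem _ (Algebra.subset_adjoin ⟨i, hi, rfl⟩)
  | algebraMap r => rw [AlgHom.commutes]; exact Subalgebra.algebraMap_mem _ r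
  | add x y _ _ hx hy => rw [map_add]; exact Subalgebra.add_mem _ hx hy
  | mul x y _ _ hx hy => rw [map_mul]; exact Subalgebra.mul_mem _ hx hy

theorem reverse_As {I : Type*} (e : I → H) (s : Finset I) (x : Cl H) (hx : x ∈ As e s) :
    reverse x ∈ As e s := by
  induction hx using Algebra.adjoin_induction with
  | mem x hx =>
    obtain ⟨i, hi, rfl⟩ := hx
    change reverse (cv (e i)) ∈ _
    rw [reverse_ι]
    exact Algebra.subset_adjoin ⟨i, hi, rfl⟩
  | algebraMap r => rw [reverse.commutes]; exact Subalgebra.algebraMap_mem _ r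
  | add x y _ _ hx hy => rw [map_add]; exact Subalgebra.add_mem _ hx hy
  | mul x y _ _ hx hy => rw [reverse.map_mul]; exact Subalgebra.mul_mem _ hy hx

theorem As_insert {I : Type*} [DecidableEq I] (e : I → H) (he : Orthonormal ℝ e) (s : Finset I)
    (i : I) (hi : i ∉ s) (x : Cl H) (hx : x ∈ As e (insert i s)) :
    ∃ a ∈ As e s, ∃ b ∈ As e s, x = a + cv (e i) * b := by
  have hct : ∀ y ∈ As e s, ct (e i) y = 0 := by
    apply ct_As
    intro j hj
    exact he.2 (fun h => hi (h ▸ hj))
  have hcomm : ∀ y ∈ As e s, y * cv (e i) = cv (e i) * involute y := by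
    intro y hy
    rw [cv_mul, involute_involute, hct _ (involute_As e s y hy), smul_zero, add_zero]
  have hee : cv (e i) * cv (e i) = 1 := by
    rw [cv_mul_self, real_inner_self_eq_norm_sq, he.1 i]
    norm_num
  induction hx using Algebra.adjoin_induction with
  | mem x hx =>
    obtain ⟨j, hj, rfl⟩ := hx
    rcases Finset.mem_insert.1 (Finset.mem_coe.1 hj) with h | h
    · subst h
      exact ⟨0, Subalgebra.zero_mem _, 1, Subalgebra.one_mem _, by rw [zero_add, mul_one]⟩
    · exact ⟨cv (e j), Algebra.subset_adjoin ⟨j, h, rfl⟩, 0, Subalgebra.zero_mem _,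
        by rw [mul_zero, add_zero]⟩
  | algebraMap r =>
    exact ⟨_, Subalgebra.algebraMap_mem _ r, 0, Subalgebra.zero_mem _, by rw [mul_zero, add_zero]⟩
  | add x y _ _ hx hy =>
    obtain ⟨a, ha, b, hb, rfl⟩ := hx
    obtain ⟨a', ha', b', hb', rfl⟩ := hy
    refine ⟨a + a', Subalgebra.add_mem _ ha ha', b + b', Subalgebra.add_mem _ hb hb', ?_⟩
    rw [mul_add]
    abel
  | mul x y _ _ hx hy =>
    obtain ⟨a, ha, b, hb, rfl⟩ := hx
    obtain ⟨a', ha', b', hb', rfl⟩ := hy
    refine ⟨a * a' + involute b * b', Subalgebra.add_mem _ (Subalgebra.mul_mem _ ha ha')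
      (Subalgebra.mul_mem _ (involute_As e s b hb) hb'), involute a * b' + b * a',
      Subalgebra.add_mem _ (Subalgebra.mul_mem _ (involute_As e s a ha) hb')
        (Subalgebra.mul_mem _ hb ha'), ?_⟩
    have h1 : a * (cv (e i) * b') = cv (e i) * (involute a * b') := by
      rw [← mul_assoc, hcomm a ha, mul_assoc]
    have h2 : cv (e i) * b * (cv (e i) * b') = involute b * b' := by
      rw [← mul_assoc, mul_assoc (cv (e i)) b, hcomm b hb, ← mul_assoc, hee, one_mul]
    rw [mul_add, add_mul, add_mul, h1, h2, mul_add, mul_assoc]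
    abel

theorem pos_As {I : Type*} [DecidableEq I] (e : I → H) (he : Orthonormal ℝ e) (s : Finset I) :
    ∀ x ∈ As e s, 0 ≤ tc (reverse x * x) ∧ tc (reverse x) = tc x := by
  induction s using Finset.induction_on with
  | empty =>
    intro x hx
    unfold As at hx
    rw [Finset.coe_empty, Set.image_empty, Algebra.adjoin_empty, Algebra.mem_bot] at hx
    obtain ⟨r, rfl⟩ := hx
    rw [reverse.commutes, ← map_mul, tc_algebraMap]
    exact ⟨mul_self_nonneg r, rfl⟩
  | insert i s hi ih =>
    intro x hx
    obtain ⟨a, ha, b, hb, rfl⟩ := As_insert e he s i hi x hx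
    have hz : ∀ y ∈ As e s, tc (cv (e i) * y) = 0 := by
      intro y hy
      rw [tc_cv_mul, ct_As e s (e i) (fun j hj => he.2 (fun h => hi (h ▸ hj))) y hy, map_zero]
    have hee : cv (e i) * cv (e i) = 1 := by
      rw [cv_mul_self, real_inner_self_eq_norm_sq, he.1 i]
      norm_num
    have hra := reverse_As e s a ha
    have hrb := reverse_As e s b hb
    constructor
    · have h1 : reverse (a + cv (e i) * b) * (a + cv (e i) * b)
          = reverse a * a + reverse b * b + (reverse a * (cv (e i) * b)
            + reverse b * (cv (e i) * a)) := by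
        rw [map_add, reverse.map_mul, reverse_ι, add_mul, mul_add, mul_add]
        have h2 : reverse b * ι (QH H) (e i) * (cv (e i) * b) = reverse b * b := by
          rw [mul_assoc, ← mul_assoc (ι (QH H) (e i)), hee, one_mul]
        rw [h2, mul_assoc (reverse b)]
        abel
      rw [h1, map_add, map_add, map_add]
      have h3 : tc (reverse a * (cv (e i) * b)) = 0 := by
        rw [tc_comm, mul_assoc]
        exact hz _ (Subalgebra.mul_mem _ hb hra)
      have h4 : tc (reverse b * (cv (e i) * a)) = 0 := by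
        rw [tc_comm, mul_assoc]
        exact hz _ (Subalgebra.mul_mem _ ha hrb)
      rw [h3, h4, add_zero, add_zero]
      exact add_nonneg (ih a ha).1 (ih b hb).1
    · rw [map_add, reverse.map_mul, reverse_ι, map_add, map_add, tc_comm (reverse b), hz b hb,
        hz _ hrb, (ih a ha).2]

theorem exists_fd (x : Cl H) : ∃ V : Submodule ℝ H, FiniteDimensional ℝ V ∧
    x ∈ Algebra.adjoin ℝ ((fun v => cv v) '' (V : Set H)) := by
  induction x using CliffordAlgebra.left_induction with
  | algebraMap r => exact ⟨⊥, inferInstance, Subalgebra.algebraMap_mem _ r⟩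
  | add x x' hx hx' =>
    obtain ⟨V, hV, hx⟩ := hx
    obtain ⟨V', hV', hx'⟩ := hx'
    refine ⟨V ⊔ V', inferInstance, Subalgebra.add_mem _ ?_ ?_⟩
    · exact Algebra.adjoin_mono (Set.image_mono (SetLike.coe_subset_coe.2 le_sup_left)) hx
    · exact Algebra.adjoin_mono (Set.image_mono (SetLike.coe_subset_coe.2 le_sup_right)) hx'
  | ι_mul x m hx =>
    obtain ⟨V, hV, hx⟩ := hx
    refine ⟨V ⊔ Submodule.span ℝ {m}, inferInstance, Subalgebra.mul_mem _ ?_ ?_⟩
    · exact Algebra.subset_adjoin ⟨m, (le_sup_right : _ ≤ V ⊔ Submodule.span ℝ {m})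
        (Submodule.mem_span_singleton_self m), rfl⟩
    · exact Algebra.adjoin_mono (Set.image_mono (SetLike.coe_subset_coe.2 le_sup_left)) hx

theorem pos_rev (x : Cl H) : 0 ≤ tc (reverse x * x) ∧ tc (reverse x) = tc x := by
  classical
  obtain ⟨V, hV, hx⟩ := exists_fd x
  let b := stdOrthonormalBasis ℝ V
  let e : Fin (Module.finrank ℝ V) → H := fun i => (b i : H)
  have he : Orthonormal ℝ e := b.orthonormal.comp_linearIsometry V.subtypeₗᵢ
  apply pos_As e he Finset.univ
  unfold As
  revert hx
  apply Algebra.adjoin_le ?_ |> SetLike.le_def.1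
  rintro _ ⟨v, hv, rfl⟩
  have h1 := b.sum_repr (⟨v, hv⟩ : V)
  have h2 : v = ∑ i, b.repr ⟨v, hv⟩ i • e i := by
    have h3 := congrArg (fun w : V => (w : H)) h1
    simp only [Submodule.coe_sum, Submodule.coe_smul] at h3
    exact h3.symm
  change cv v ∈ _
  rw [h2]
  unfold cv
  rw [map_sum]
  refine Subalgebra.sum_mem _ fun i _ => ?_
  rw [map_smul]
  have h4 : cv (e i) ∈ Algebra.adjoin ℝ ((fun i => cv (e i)) ''
      ((Finset.univ : Finset (Fin (Module.finrank ℝ V))) : Set (Fin (Module.finrank ℝ V)))) :=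
    Algebra.subset_adjoin ⟨i, Finset.mem_coe.2 (Finset.mem_univ i), rfl⟩
  exact Subalgebra.smul_mem _ h4 _

end positive

end Run7.h31.Inv
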