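import Pool.Agent.Run7.h31.Inv.Tr

set_option autoImplicit false
set_option linter.unusedSectionVars false

open scoped RealInnerProductSpace Topology MatrixOrder

/-! The estimates. -/

namespace Run7.h31.Inv

open CliffordAlgebra

section
variable {H : Type*} [NormedAddCommGroup H] [InnerProductSpace ℝ H]

theorem ip_sum_sum {I : Type*} (F : Finset I) (b : I → ℝ) (X : I → Cl H) :
    ip (∑ ρ ∈ F, b ρ • X ρ) (∑ ρ ∈ F, b ρ • X ρ)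
      = ∑ ρ ∈ F, ∑ κ ∈ F, b ρ * b κ * ip (X ρ) (X κ) := by
  have h1 : ∀ Y : Cl H, ip (∑ ρ ∈ F, b ρ • X ρ) Y = ∑ ρ ∈ F, b ρ * ip (X ρ) Y := by
    intro Y
    rw [map_sum, LinearMap.sum_apply]
    refine Finset.sum_congr rfl fun ρ _ => ?_
    rw [map_smul, LinearMap.smul_apply, smul_eq_mul]
  rw [h1]
  refine Finset.sum_congr rfl fun ρ _ => ?_
  rw [ip_symm, h1, Finset.mul_sum]
  refine Finset.sum_congr rfl fun κ _ => ?_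
  rw [ip_symm]
  ring

/-- the inequality of Jensen -/
theorem jensen {I : Type*} (F : Finset I) (b : I → ℝ) (X : I → Cl H) :
    ip (∑ ρ ∈ F, b ρ • X ρ) (∑ ρ ∈ F, b ρ • X ρ)
      ≤ (∑ ρ ∈ F, |b ρ|) * ∑ ρ ∈ F, |b ρ| * ip (X ρ) (X ρ) := by
  rw [ip_sum_sum]
  have h1 : ∀ ρ ∈ F, ∀ κ ∈ F, b ρ * b κ * ip (X ρ) (X κ)
      ≤ |b ρ| * |b κ| * ((ip (X ρ) (X ρ) + ip (X κ) (X κ)) / 2) := by
    intro ρ _ κ _
    calc b ρ * b κ * ip (X ρ) (X κ) ≤ |b ρ * b κ * ip (X ρ) (X κ)| := le_abs_self _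
      _ = |b ρ| * |b κ| * |ip (X ρ) (X κ)| := by rw [abs_mul, abs_mul]
      _ ≤ _ := by
        refine mul_le_mul_of_nonneg_left ?_ (by positivity)
        have := two_ip_le (X ρ) (X κ)
        linarith
  refine (Finset.sum_le_sum fun ρ hρ => Finset.sum_le_sum fun κ hκ => h1 ρ hρ κ hκ).trans
    (le_of_eq ?_)
  have h2 : ∀ ρ κ, |b ρ| * |b κ| * ((ip (X ρ) (X ρ) + ip (X κ) (X κ)) / 2)
      = (|b κ| * (|b ρ| * ip (X ρ) (X ρ))) / 2 + (|b ρ| * (|b κ| * ip (X κ) (X κ))) / 2 := by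
    intro ρ κ
    ring
  simp only [h2, Finset.sum_add_distrib, ← Finset.sum_div, ← Finset.mul_sum, ← Finset.sum_mul]
  ring

/-- the gap for functions with values in the Clifford algebra -/
theorem gapCl {E : Type*} (B : E → E → ℝ) (c : ℝ) (F A' : Finset E)
    (gap : ∀ x : E → ℂ, (∀ σ, σ ∉ F → x σ = 0) →
      c * ∑ σ ∈ F, ‖x σ‖ ^ 2 ≤ ∑ σ ∈ A', ‖∑ ρ ∈ F, (B σ ρ : ℂ) * x ρ‖ ^ 2)
    (X : E → Cl H) :
    c * ∑ ρ ∈ F, ip (X ρ) (X ρ)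
      ≤ ∑ σ ∈ A', ip (∑ ρ ∈ F, B σ ρ • X ρ) (∑ ρ ∈ F, B σ ρ • X ρ) := by
  classical
  let G : Matrix F F ℝ := fun ρ κ => ip (X ρ) (X κ)
  have hG : G.PosSemidef := by
    rw [Matrix.posSemidef_iff_dotProduct_mulVec]
    refine ⟨?_, ?_⟩
    · ext ρ κ
      change ip (X κ) (X ρ) = ip (X ρ) (X κ)
      exact ip_symm _ _
    · intro w
      have h := ip_nonneg (∑ ρ : F, w ρ • X ρ)
      rw [ip_sum_sum] at h
      refine h.trans (le_of_eq ?_)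
      simp only [dotProduct, Matrix.mulVec, Finset.mul_sum]
      refine Finset.sum_congr rfl fun ρ _ => Finset.sum_congr rfl fun κ _ => ?_
      change w ρ * w κ * ip (X ρ) (X κ) = w ρ * (ip (X ρ) (X κ) * w κ)
      ring
  obtain ⟨M, hM⟩ : ∃ M : Matrix F F ℝ, G = star M * M :=
    CStarAlgebra.nonneg_iff_eq_star_mul_self.mp hG.nonneg
  have hGM : ∀ ρ κ : F, ip (X ρ) (X κ) = ∑ k : F, M k ρ * M k κ := by
    intro ρ κ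
    have h := congrFun (congrFun hM ρ) κ
    rw [Matrix.mul_apply] at h
    exact h
  let y : F → E → ℂ := fun k σ => if h : σ ∈ F then (M k ⟨σ, h⟩ : ℂ) else 0
  have hy : ∀ k (ρ : F), y k ρ = (M k ρ : ℂ) := fun k ρ => dif_pos ρ.2
  have hgap : ∀ k, c * ∑ σ ∈ F, ‖y k σ‖ ^ 2
      ≤ ∑ σ ∈ A', ‖∑ ρ ∈ F, (B σ ρ : ℂ) * y k ρ‖ ^ 2 := by
    intro k
    exact gap (y k) (fun σ hσ => dif_neg hσ)
  have hsum := Finset.sum_le_sum (s := (Finset.univ : Finset F)) fun k _ => hgap k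
  rw [← Finset.mul_sum] at hsum
  have e1 : ∑ ρ ∈ F, ip (X ρ) (X ρ) = ∑ k : F, ∑ σ ∈ F, ‖y k σ‖ ^ 2 := by
    rw [Finset.sum_comm, ← Finset.sum_coe_sort F, ← Finset.sum_coe_sort F]
    refine Finset.sum_congr rfl fun ρ _ => ?_
    rw [hGM]
    refine Finset.sum_congr rfl fun k _ => ?_
    rw [hy, Complex.norm_real, Real.norm_eq_abs, sq_abs, sq]
  have e2 : ∑ σ ∈ A', ip (∑ ρ ∈ F, B σ ρ • X ρ) (∑ ρ ∈ F, B σ ρ • X ρ)
      = ∑ k : F, ∑ σ ∈ A', ‖∑ ρ ∈ F, (B σ ρ : ℂ) * y k ρ‖ ^ 2 := by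
    rw [Finset.sum_comm]
    refine Finset.sum_congr rfl fun σ _ => ?_
    rw [ip_sum_sum]
    have h3 : ∀ k, ∑ ρ ∈ F, (B σ ρ : ℂ) * y k ρ = ((∑ ρ : F, B σ ρ * M k ρ : ℝ) : ℂ) := by
      intro k
      rw [Complex.ofReal_sum, ← Finset.sum_coe_sort F]
      refine Finset.sum_congr rfl fun ρ _ => ?_
      rw [hy, Complex.ofReal_mul]
    simp only [h3, Complex.norm_real, Real.norm_eq_abs, sq_abs]
    have h5 : ∑ ρ ∈ F, ∑ κ ∈ F, B σ ρ * B σ κ * ip (X ρ) (X κ)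
        = ∑ ρ : F, ∑ κ : F, B σ ρ * B σ κ * ip (X ρ) (X κ) := by
      rw [← Finset.sum_coe_sort F]
      refine Finset.sum_congr rfl fun ρ _ => ?_
      rw [← Finset.sum_coe_sort F]
    rw [h5]
    have h4 : ∀ k : F, (∑ ρ : F, B σ ρ * M k ρ) ^ 2
        = ∑ ρ : F, ∑ κ : F, B σ ρ * B σ κ * (M k ρ * M k κ) := by
      intro k
      rw [sq, Finset.sum_mul_sum]
      refine Finset.sum_congr rfl fun ρ _ => Finset.sum_congr rfl fun κ _ => ?_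
      ring
    simp only [h4]
    symm
    rw [Finset.sum_comm]
    refine Finset.sum_congr rfl fun ρ _ => ?_
    rw [Finset.sum_comm]
    refine Finset.sum_congr rfl fun κ _ => ?_
    rw [hGM, Finset.mul_sum]
  rw [e1, e2]
  exact hsum

end

section
variable {H : Type*} [NormedAddCommGroup H] [InnerProductSpace ℝ H]
variable {E : Type*} (B : E → E → ℝ) (γ : E → ℝ) (v : E → H) (s : ℝ)

/-- the value of the operator -/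
noncomputable def TX (F : Finset E) (X : E → Cl H) (σ : E) : Cl H :=
  s • (∑ ρ ∈ F, B σ ρ • X ρ) + γ σ • (cv (v σ) * X σ)

variable {B γ v s}

theorem ip_TX (hγ : ∀ σ, γ σ = 1 ∨ γ σ = -1) (F : Finset E) (X : E → Cl H) (σ : E) :
    ip (TX B γ v s F X σ) (TX B γ v s F X σ) =
      s ^ 2 * ip (∑ ρ ∈ F, B σ ρ • X ρ) (∑ ρ ∈ F, B σ ρ • X ρ) + ⟪v σ, v σ⟫ * ip (X σ) (X σ)
        + 2 * s * (γ σ * ip (∑ ρ ∈ F, B σ ρ • X ρ) (cv (v σ) * X σ)) := by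
  have hγ2 : γ σ * γ σ = 1 := by rcases hγ σ with h | h <;> rw [h] <;> norm_num
  unfold TX
  set a := ∑ ρ ∈ F, B σ ρ • X ρ
  set b := cv (v σ) * X σ with hb
  simp only [map_add, LinearMap.add_apply, map_smul, LinearMap.smul_apply, smul_eq_mul]
  rw [ip_symm b a]
  have h1 : ip b b = ⟪v σ, v σ⟫ * ip (X σ) (X σ) := by rw [hb, ip_cv_cv]
  rw [h1]
  linear_combination (⟪v σ, v σ⟫ * ip (X σ) (X σ)) * hγ2

theorem Q_bound (hsymm : ∀ σ ρ, B σ ρ = B ρ σ) (hγ : ∀ σ, γ σ = 1 ∨ γ σ = -1)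
    (hodd : ∀ σ ρ, B σ ρ ≠ 0 → γ σ = - γ ρ) (b : ℝ)
    (hb : ∀ σ (A : Finset E), ∑ ρ ∈ A, |B σ ρ| ≤ b) (C : ℝ) (hC : 0 < C)
    (hLip : ∀ σ ρ, B σ ρ ≠ 0 → ⟪v σ - v ρ, v σ - v ρ⟫ ≤ C ^ 2) (F : Finset E) (X : E → Cl H) :
    |2 * ∑ σ ∈ F, γ σ * ip (∑ ρ ∈ F, B σ ρ • X ρ) (cv (v σ) * X σ)|
      ≤ C * b * ∑ σ ∈ F, ip (X σ) (X σ) := by
  set Q : ℝ := ∑ σ ∈ F, γ σ * ip (∑ ρ ∈ F, B σ ρ • X ρ) (cv (v σ) * X σ) with hQ
  have q1 : Q = ∑ σ ∈ F, ∑ ρ ∈ F, γ σ * B σ ρ * ip (X ρ) (cv (v σ) * X σ) := by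
    rw [hQ]
    refine Finset.sum_congr rfl fun σ _ => ?_
    rw [map_sum, LinearMap.sum_apply, Finset.mul_sum]
    refine Finset.sum_congr rfl fun ρ _ => ?_
    rw [map_smul, LinearMap.smul_apply, smul_eq_mul, mul_assoc]
  have q2 : Q = ∑ σ ∈ F, ∑ ρ ∈ F, - (γ σ * B σ ρ * ip (X ρ) (cv (v ρ) * X σ)) := by
    rw [q1, Finset.sum_comm]
    refine Finset.sum_congr rfl fun σ _ => Finset.sum_congr rfl fun ρ _ => ?_
    by_cases h : B σ ρ = 0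
    · rw [hsymm ρ σ, h]; simp
    · rw [hsymm ρ σ, hodd σ ρ h, ← ip_cv, ip_symm]
      ring
  have q3 : 2 * Q = ∑ σ ∈ F, ∑ ρ ∈ F, γ σ * B σ ρ * ip (X ρ) (cv (v σ - v ρ) * X σ) := by
    have : 2 * Q = Q + Q := by ring
    rw [this]
    nth_rewrite 1 [q1]
    rw [q2, ← Finset.sum_add_distrib]
    refine Finset.sum_congr rfl fun σ _ => ?_
    rw [← Finset.sum_add_distrib]
    refine Finset.sum_congr rfl fun ρ _ => ?_
    have e : cv (v σ - v ρ) = cv (v σ) - cv (v ρ) := map_sub _ _ _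
    rw [e, sub_mul, map_sub]
    ring
  have hcs : ∀ σ ∈ F, ∀ ρ ∈ F, |γ σ * B σ ρ * ip (X ρ) (cv (v σ - v ρ) * X σ)| ≤
      |B σ ρ| * (C * ((ip (X ρ) (X ρ) + ip (X σ) (X σ)) / 2)) := by
    intro σ _ ρ _
    by_cases h : B σ ρ = 0
    · rw [h]; simp
    rw [abs_mul, abs_mul]
    have a1 : |γ σ| = 1 := by rcases hγ σ with h | h <;> rw [h] <;> norm_num
    rw [a1, one_mul]
    refine mul_le_mul_of_nonneg_left ?_ (abs_nonneg _)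
    have h1 := two_ip_le (C • X ρ) (cv (v σ - v ρ) * X σ)
    rw [ip_smul_smul, map_smul, LinearMap.smul_apply, smul_eq_mul, abs_mul, abs_of_pos hC,
      ip_cv_cv] at h1
    have h2 := mul_le_mul_of_nonneg_right (hLip σ ρ h) (ip_nonneg (X σ))
    have h3 : C * (|ip (X ρ) (cv (v σ - v ρ) * X σ)|) ≤
        C * (C * ((ip (X ρ) (X ρ) + ip (X σ) (X σ)) / 2)) := by nlinarith
    exact le_of_mul_le_mul_left h3 hC
  rw [q3]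
  calc |∑ σ ∈ F, ∑ ρ ∈ F, γ σ * B σ ρ * ip (X ρ) (cv (v σ - v ρ) * X σ)|
      ≤ ∑ σ ∈ F, ∑ ρ ∈ F, |γ σ * B σ ρ * ip (X ρ) (cv (v σ - v ρ) * X σ)| := by
        refine (Finset.abs_sum_le_sum_abs _ _).trans ?_
        exact Finset.sum_le_sum fun σ _ => Finset.abs_sum_le_sum_abs _ _
    _ ≤ ∑ σ ∈ F, ∑ ρ ∈ F, |B σ ρ| * (C * ((ip (X ρ) (X ρ) + ip (X σ) (X σ)) / 2)) :=
        Finset.sum_le_sum fun σ hσ => Finset.sum_le_sum fun ρ hρ => hcs σ hσ ρ hρ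
    _ = C / 2 * (∑ σ ∈ F, ∑ ρ ∈ F, |B σ ρ| * ip (X ρ) (X ρ)) +
        C / 2 * (∑ σ ∈ F, ∑ ρ ∈ F, |B σ ρ| * ip (X σ) (X σ)) := by
        rw [Finset.mul_sum, Finset.mul_sum, ← Finset.sum_add_distrib]
        refine Finset.sum_congr rfl fun σ _ => ?_
        rw [Finset.mul_sum, Finset.mul_sum, ← Finset.sum_add_distrib]
        exact Finset.sum_congr rfl fun ρ _ => by ring
    _ = C * (∑ σ ∈ F, (∑ ρ ∈ F, |B σ ρ|) * ip (X σ) (X σ)) := by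
        have e1 : ∑ σ ∈ F, ∑ ρ ∈ F, |B σ ρ| * ip (X ρ) (X ρ) =
            ∑ σ ∈ F, ∑ ρ ∈ F, |B σ ρ| * ip (X σ) (X σ) := by
          rw [Finset.sum_comm]
          exact Finset.sum_congr rfl fun σ _ => Finset.sum_congr rfl fun ρ _ => by
            rw [hsymm]
        rw [e1]
        simp only [Finset.sum_mul]
        ring
    _ ≤ C * (∑ σ ∈ F, b * ip (X σ) (X σ)) := by
        refine mul_le_mul_of_nonneg_left ?_ hC.le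
        exact Finset.sum_le_sum fun σ _ =>
          mul_le_mul_of_nonneg_right (hb σ F) (ip_nonneg _)
    _ = C * b * ∑ σ ∈ F, ip (X σ) (X σ) := by rw [← Finset.mul_sum]; ring

theorem lower [DecidableEq E] (hsymm : ∀ σ ρ, B σ ρ = B ρ σ) (hγ : ∀ σ, γ σ = 1 ∨ γ σ = -1)
    (hodd : ∀ σ ρ, B σ ρ ≠ 0 → γ σ = - γ ρ) (b : ℝ) (hb0 : 0 ≤ b)
    (hb : ∀ σ (A : Finset E), ∑ ρ ∈ A, |B σ ρ| ≤ b) (C : ℝ) (hC : 0 < C)
    (hLip : ∀ σ ρ, B σ ρ ≠ 0 → ⟪v σ - v ρ, v σ - v ρ⟫ ≤ C ^ 2) (hs : 0 < s) (c : ℝ)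
    (F S A' : Finset E) (hFS : F ⊆ S) (hSA : S ⊆ A') (X : E → Cl H) (hX : ∀ σ, σ ∉ F → X σ = 0)
    (hfar : ∀ σ ∈ A' \ S, ∀ ρ ∈ F, B σ ρ ≠ 0 → (s * b) ^ 2 ≤ ⟪v ρ, v ρ⟫)
    (gap : c * ∑ ρ ∈ F, ip (X ρ) (X ρ)
      ≤ ∑ σ ∈ A', ip (∑ ρ ∈ F, B σ ρ • X ρ) (∑ ρ ∈ F, B σ ρ • X ρ)) :
    (s * (s * c - C * b)) * ∑ ρ ∈ F, ip (X ρ) (X ρ)
      ≤ ∑ σ ∈ S, ip (TX B γ v s F X σ) (TX B γ v s F X σ) := by
  set q : E → ℝ := fun σ => ip (∑ ρ ∈ F, B σ ρ • X ρ) (∑ ρ ∈ F, B σ ρ • X ρ) with hq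
  have h1 : ∑ σ ∈ S, ip (TX B γ v s F X σ) (TX B γ v s F X σ)
      = s ^ 2 * ∑ σ ∈ S, q σ + ∑ σ ∈ F, ⟪v σ, v σ⟫ * ip (X σ) (X σ)
        + s * (2 * ∑ σ ∈ F, γ σ * ip (∑ ρ ∈ F, B σ ρ • X ρ) (cv (v σ) * X σ)) := by
    have e1 : ∑ σ ∈ F, ⟪v σ, v σ⟫ * ip (X σ) (X σ) = ∑ σ ∈ S, ⟪v σ, v σ⟫ * ip (X σ) (X σ) := by
      apply Finset.sum_subset hFS
      intro σ _ hσ
      rw [hX σ hσ, map_zero, mul_zero]
    have e2 : ∑ σ ∈ F, γ σ * ip (∑ ρ ∈ F, B σ ρ • X ρ) (cv (v σ) * X σ)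
        = ∑ σ ∈ S, γ σ * ip (∑ ρ ∈ F, B σ ρ • X ρ) (cv (v σ) * X σ) := by
      apply Finset.sum_subset hFS
      intro σ _ hσ
      rw [hX σ hσ, mul_zero, map_zero, mul_zero]
    rw [e1, e2, Finset.mul_sum, Finset.mul_sum, Finset.mul_sum, ← Finset.sum_add_distrib,
      ← Finset.sum_add_distrib]
    refine Finset.sum_congr rfl fun σ _ => ?_
    rw [ip_TX hγ]
    ring
  have h2 := Q_bound hsymm hγ hodd b hb C hC hLip F X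
  have h3 : s ^ 2 * ∑ σ ∈ A' \ S, q σ ≤ ∑ ρ ∈ F, ⟪v ρ, v ρ⟫ * ip (X ρ) (X ρ) := by
    calc s ^ 2 * ∑ σ ∈ A' \ S, q σ
        ≤ s ^ 2 * ∑ σ ∈ A' \ S, b * ∑ ρ ∈ F, |B σ ρ| * ip (X ρ) (X ρ) := by
          refine mul_le_mul_of_nonneg_left (Finset.sum_le_sum fun σ _ => ?_) (sq_nonneg _)
          refine (jensen F (fun ρ => B σ ρ) X).trans ?_
          exact mul_le_mul_of_nonneg_right (hb σ F)
            (Finset.sum_nonneg fun ρ _ => mul_nonneg (abs_nonneg _) (ip_nonneg _))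
      _ = ∑ ρ ∈ F, (s ^ 2 * b * ∑ σ ∈ A' \ S, |B σ ρ|) * ip (X ρ) (X ρ) := by
          rw [← Finset.mul_sum, Finset.sum_comm]
          simp only [Finset.mul_sum, Finset.sum_mul]
          exact Finset.sum_congr rfl fun ρ _ => Finset.sum_congr rfl fun σ _ => by ring
      _ ≤ _ := by
          refine Finset.sum_le_sum fun ρ hρ => mul_le_mul_of_nonneg_right ?_ (ip_nonneg _)
          by_cases h : ∃ σ ∈ A' \ S, B σ ρ ≠ 0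
          · obtain ⟨σ, hσ, hσρ⟩ := h
            refine le_trans ?_ (hfar σ hσ ρ hρ hσρ)
            have h2 : ∑ σ ∈ A' \ S, |B σ ρ| ≤ b := by
              refine le_trans (le_of_eq ?_) (hb ρ (A' \ S))
              exact Finset.sum_congr rfl fun σ _ => by rw [hsymm]
            calc s ^ 2 * b * ∑ σ ∈ A' \ S, |B σ ρ| ≤ s ^ 2 * b * b :=
                  mul_le_mul_of_nonneg_left h2 (mul_nonneg (sq_nonneg _) hb0)
              _ = (s * b) ^ 2 := by ring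
          · push Not at h
            have : ∑ σ ∈ A' \ S, |B σ ρ| = 0 :=
              Finset.sum_eq_zero fun σ hσ => by rw [h σ hσ, abs_zero]
            rw [this, mul_zero]
            exact real_inner_self_nonneg
  have h4 : ∑ σ ∈ A', q σ = ∑ σ ∈ A' \ S, q σ + ∑ σ ∈ S, q σ := (Finset.sum_sdiff hSA).symm
  rw [h1]
  have h5 : s ^ 2 * (c * ∑ ρ ∈ F, ip (X ρ) (X ρ)) ≤ s ^ 2 * ∑ σ ∈ A', q σ :=
    mul_le_mul_of_nonneg_left gap (sq_nonneg _)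
  rw [h4, mul_add] at h5
  have h6 := mul_le_mul_of_nonneg_left h2 hs.le
  have h7 := neg_abs_le (2 * ∑ σ ∈ F, γ σ * ip (∑ ρ ∈ F, B σ ρ • X ρ) (cv (v σ) * X σ))
  have h8 := mul_le_mul_of_nonneg_left h7 hs.le
  nlinarith

theorem upper (hsymm : ∀ σ ρ, B σ ρ = B ρ σ) (hγ : ∀ σ, γ σ = 1 ∨ γ σ = -1)
    (b : ℝ) (hb0 : 0 ≤ b) (hb : ∀ σ (A : Finset E), ∑ ρ ∈ A, |B σ ρ| ≤ b) (R : ℝ)
    (F S : Finset E) (hFS : F ⊆ S) (X : E → Cl H) (hX : ∀ σ, σ ∉ F → X σ = 0)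
    (hR : ∀ σ ∈ F, ⟪v σ, v σ⟫ ≤ R) :
    ∑ σ ∈ S, ip (TX B γ v s F X σ) (TX B γ v s F X σ)
      ≤ (2 * s ^ 2 * b ^ 2 + 2 * R) * ∑ ρ ∈ F, ip (X ρ) (X ρ) := by
  set q : E → ℝ := fun σ => ip (∑ ρ ∈ F, B σ ρ • X ρ) (∑ ρ ∈ F, B σ ρ • X ρ) with hq
  have h1 : ∀ σ, ip (TX B γ v s F X σ) (TX B γ v s F X σ)
      ≤ 2 * s ^ 2 * q σ + 2 * (⟪v σ, v σ⟫ * ip (X σ) (X σ)) := by
    intro σ
    have h2 := two_ip_le (s • (∑ ρ ∈ F, B σ ρ • X ρ)) (γ σ • (cv (v σ) * X σ))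
    have h3 := le_abs_self (ip (s • (∑ ρ ∈ F, B σ ρ • X ρ)) (γ σ • (cv (v σ) * X σ)))
    have hγ2 : γ σ ^ 2 = 1 := by rcases hγ σ with h | h <;> rw [h] <;> norm_num
    rw [ip_smul_smul, ip_smul_smul, ip_cv_cv, hγ2, one_mul] at h2
    have h4 : ip (TX B γ v s F X σ) (TX B γ v s F X σ)
        = s ^ 2 * q σ + ⟪v σ, v σ⟫ * ip (X σ) (X σ)
          + 2 * ip (s • (∑ ρ ∈ F, B σ ρ • X ρ)) (γ σ • (cv (v σ) * X σ)) := by
      rw [ip_TX hγ]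
      simp only [map_smul, LinearMap.smul_apply, smul_eq_mul]
      ring
    rw [h4]
    have h5 : s ^ 2 * q σ = s ^ 2 * ip (∑ ρ ∈ F, B σ ρ • X ρ) (∑ ρ ∈ F, B σ ρ • X ρ) := rfl
    linarith
  have h2 : ∑ σ ∈ S, q σ ≤ b ^ 2 * ∑ ρ ∈ F, ip (X ρ) (X ρ) := by
    calc ∑ σ ∈ S, q σ ≤ ∑ σ ∈ S, b * ∑ ρ ∈ F, |B σ ρ| * ip (X ρ) (X ρ) := by
          refine Finset.sum_le_sum fun σ _ => ?_
          refine (jensen F (fun ρ => B σ ρ) X).trans ?_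
          exact mul_le_mul_of_nonneg_right (hb σ F)
            (Finset.sum_nonneg fun ρ _ => mul_nonneg (abs_nonneg _) (ip_nonneg _))
      _ = b * ∑ ρ ∈ F, (∑ σ ∈ S, |B σ ρ|) * ip (X ρ) (X ρ) := by
          rw [← Finset.mul_sum, Finset.sum_comm]
          simp only [Finset.sum_mul]
      _ ≤ b * ∑ ρ ∈ F, b * ip (X ρ) (X ρ) := by
          refine mul_le_mul_of_nonneg_left (Finset.sum_le_sum fun ρ _ => ?_) hb0
          refine mul_le_mul_of_nonneg_right ?_ (ip_nonneg _)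
          refine le_trans (le_of_eq ?_) (hb ρ S)
          exact Finset.sum_congr rfl fun σ _ => by rw [hsymm]
      _ = _ := by rw [← Finset.mul_sum]; ring
  have h3 : ∑ σ ∈ S, ⟪v σ, v σ⟫ * ip (X σ) (X σ) ≤ R * ∑ ρ ∈ F, ip (X ρ) (X ρ) := by
    have e1 : ∑ σ ∈ F, ⟪v σ, v σ⟫ * ip (X σ) (X σ) = ∑ σ ∈ S, ⟪v σ, v σ⟫ * ip (X σ) (X σ) := by
      apply Finset.sum_subset hFS
      intro σ _ hσ
      rw [hX σ hσ, map_zero, mul_zero]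
    rw [← e1, Finset.mul_sum]
    exact Finset.sum_le_sum fun σ hσ => mul_le_mul_of_nonneg_right (hR σ hσ) (ip_nonneg _)
  calc ∑ σ ∈ S, ip (TX B γ v s F X σ) (TX B γ v s F X σ)
      ≤ ∑ σ ∈ S, (2 * s ^ 2 * q σ + 2 * (⟪v σ, v σ⟫ * ip (X σ) (X σ))) :=
        Finset.sum_le_sum fun σ _ => h1 σ
    _ = 2 * s ^ 2 * ∑ σ ∈ S, q σ + 2 * ∑ σ ∈ S, ⟪v σ, v σ⟫ * ip (X σ) (X σ) := by
        rw [Finset.sum_add_distrib, Finset.mul_sum, Finset.mul_sum]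
    _ ≤ _ := by
        have h4 := mul_le_mul_of_nonneg_left h2 (by positivity : (0 : ℝ) ≤ 2 * s ^ 2)
        linarith

end

end Run7.h31.Inv
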