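import Pool.Agent.Run7.h31.Inv.Est

set_option autoImplicit false
set_option linter.unusedSectionVars false

open scoped RealInnerProductSpace Topology

/-! The vanishing theorem for symmetric matrices with a gap. -/

namespace Run7.h31.Inv

open CliffordAlgebra

section trans
variable {Z A : Type*} [Group Z] [MulAction Z A]

/-- existence of a finite transversal -/
theorem exists_reps (S0 : Finset A) (h : ∀ a : A, ∃ z : Z, z • a ∈ S0) :
    ∃ J : Finset A, Reps Z J := by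
  classical
  have hfin : Finite (MulAction.orbitRel.Quotient Z A) := by
    refine Finite.of_surjective (fun s : S0 => (Quotient.mk'' (s : A) :
      MulAction.orbitRel.Quotient Z A)) ?_
    intro q
    induction q using Quotient.inductionOn' with
    | h a =>
      obtain ⟨z, hz⟩ := h a
      refine ⟨⟨z • a, hz⟩, ?_⟩
      exact Quotient.sound' ⟨z, rfl⟩
  have : Fintype (MulAction.orbitRel.Quotient Z A) := Fintype.ofFinite _
  have hout : ∀ a : A, ∃ z : Z,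
      z • ((Quotient.mk'' a : MulAction.orbitRel.Quotient Z A).out) = a := by
    intro a
    have h1 := Quotient.exact' (Quotient.out_eq'
      (Quotient.mk'' a : MulAction.orbitRel.Quotient Z A)).symm
    obtain ⟨z, hz⟩ := h1
    exact ⟨z, hz⟩
  refine ⟨(Finset.univ : Finset (MulAction.orbitRel.Quotient Z A)).image Quotient.out, ?_⟩
  intro a
  refine ⟨(Quotient.mk'' a : MulAction.orbitRel.Quotient Z A).out,
    ⟨Finset.mem_image.2 ⟨_, Finset.mem_univ _, rfl⟩, hout a⟩, ?_⟩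
  rintro j ⟨hj, z, hz⟩
  obtain ⟨q, _, rfl⟩ := Finset.mem_image.1 hj
  have h2 : (Quotient.mk'' a : MulAction.orbitRel.Quotient Z A) = q := by
    rw [← Quotient.out_eq' q]
    exact Quotient.sound' ⟨z, hz⟩
  rw [h2]

end trans

section master
variable {H : Type*} [NormedAddCommGroup H] [InnerProductSpace ℝ H]
variable {E : Type*} {Z : Type*} [Group Z] [MulAction Z E]

/-- the sublevel set -/
abbrev Sub (v : E → H) (R : ℝ) : Type _ := {σ : E // ‖v σ‖ ≤ R}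

/-- the action on the sublevel set -/
@[reducible] def subAct (v : E → H) (π : Z →* (H ≃ₗᵢ[ℝ] H))
    (hv : ∀ (z : Z) σ, v (z • σ) = π z (v σ)) (R : ℝ) : MulAction Z (Sub v R) where
  smul z a := ⟨z • a.1, by rw [hv, LinearIsometryEquiv.norm_map]; exact a.2⟩
  one_smul a := Subtype.ext (one_smul Z a.1)
  mul_smul z w a := Subtype.ext (mul_smul z w a.1)

/-- extension by zero -/
noncomputable def ext0 {p : E → Prop} (x : {σ // p σ} →₀ Cl H) (σ : E) : Cl H :=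
  haveI := Classical.dec (p σ)
  if h : p σ then x ⟨σ, h⟩ else 0

theorem ext0_coe {p : E → Prop} (x : {σ // p σ} →₀ Cl H) (σ : {σ // p σ}) :
    ext0 x (σ : E) = x σ := by
  unfold ext0
  rw [dif_pos σ.2]

theorem ext0_zero {p : E → Prop} (x : {σ // p σ} →₀ Cl H) (σ : E)
    (h : σ ∉ x.support.map (Function.Embedding.subtype p)) : ext0 x σ = 0 := by
  unfold ext0
  by_cases hσ : p σ
  · rw [dif_pos hσ]
    by_contra hne
    apply h
    rw [Finset.mem_map]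
    exact ⟨⟨σ, hσ⟩, Finsupp.mem_support_iff.2 hne, rfl⟩
  · rw [dif_neg hσ]

theorem sum_ext0 {p : E → Prop} (x : {σ // p σ} →₀ Cl H) {M : Type*} [AddCommMonoid M]
    (f : E → Cl H → M) :
    ∑ ρ ∈ x.support.map (Function.Embedding.subtype p), f ρ (ext0 x ρ)
      = ∑ ρ ∈ x.support, f ρ (x ρ) := by
  rw [Finset.sum_map]
  refine Finset.sum_congr rfl fun ρ _ => ?_
  change f (ρ : E) (ext0 x (ρ : E)) = _
  rw [ext0_coe]

/-- the entries of the operator -/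
noncomputable def kern (B : E → E → ℝ) (γ : E → ℝ) (v : E → H) (s : ℝ) (p : E → Prop)
    (σ κ : {σ // p σ}) : Cl H :=
  haveI := Classical.decEq E
  algebraMap ℝ (Cl H) (s * B σ κ) + (if (σ : E) = κ then γ σ • cv (v σ) else 0)

theorem bt_self_sum {A : Type*} (x : A →₀ Cl H) (S : Finset A) (h : x.support ⊆ S) :
    bt x x = ∑ σ ∈ S, ip (x σ) (x σ) := by
  rw [bt_apply]
  unfold Finsupp.sum
  apply Finset.sum_subset h
  intro σ _ hσ
  change ip (x σ) (x σ) = 0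
  rw [Finsupp.notMem_support_iff.1 hσ, map_zero]

variable {B : E → E → ℝ} {γ : E → ℝ} {v : E → H} {s : ℝ}

theorem Top_kern {p : E → Prop} {nb : {σ // p σ} → Finset {σ // p σ}}
    (h : Prop' (kern B γ v s p) nb) (x : {σ // p σ} →₀ Cl H) (σ : {σ // p σ}) :
    Top (kern B γ v s p) nb x σ
      = TX B γ v s (x.support.map (Function.Embedding.subtype p)) (ext0 x) σ := by
  classical
  rw [Top_apply h]
  unfold TX Finsupp.sum kern
  rw [sum_ext0 x (fun ρ y => B σ ρ • y), Finset.smul_sum, ext0_coe]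
  simp only [add_mul, Finset.sum_add_distrib]
  congr 1
  · refine Finset.sum_congr rfl fun ρ _ => ?_
    rw [← Algebra.smul_def, mul_smul]
  · rw [Finset.sum_eq_single σ]
    · rw [if_pos rfl, smul_mul_assoc]
    · intro ρ _ hne
      rw [if_neg, zero_mul]
      intro h
      exact hne (Subtype.ext h.symm)
    · intro hσ
      rw [Finsupp.notMem_support_iff.1 hσ, mul_zero]

/-- **the vanishing theorem for symmetric matrices with a gap** -/
theorem master (hsymm : ∀ σ ρ, B σ ρ = B ρ σ) (hγ : ∀ σ, γ σ = 1 ∨ γ σ = -1)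
    (hodd : ∀ σ ρ, B σ ρ ≠ 0 → γ σ = - γ ρ) (ε : E → ℝ) (hε : ∀ σ, ε σ = 1 ∨ ε σ = -1)
    (τ : Equiv.Perm E) (hB : ∀ σ ρ, B (τ σ) (τ ρ) = ε σ * ε ρ * B σ ρ)
    (hγτ : ∀ σ, γ (τ σ) = γ σ) (nbr : E → Finset E) (hnbr : ∀ σ ρ, B σ ρ ≠ 0 → σ ∈ nbr ρ)
    (b : ℝ) (hb0 : 0 ≤ b) (hb : ∀ σ (A : Finset E), ∑ ρ ∈ A, |B σ ρ| ≤ b)
    (c : ℝ) (hc : 0 < c)
    (gap : ∀ (A A' : Finset E), A ⊆ A' → (∀ ρ ∈ A, nbr ρ ⊆ A') → ∀ x : E → ℂ,
      (∀ σ, σ ∉ A → x σ = 0) →
      c * ∑ σ ∈ A, ‖x σ‖ ^ 2 ≤ ∑ σ ∈ A', ‖∑ ρ ∈ A, (B σ ρ : ℂ) * x ρ‖ ^ 2)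
    (hfree : ∀ (z : Z) (σ : E), z • σ = σ → z = 1)
    (hZB : ∀ (z : Z) σ ρ, B (z • σ) (z • ρ) = B σ ρ) (hZγ : ∀ (z : Z) σ, γ (z • σ) = γ σ)
    (hZτ : ∀ (z : Z) σ, τ (z • σ) = z • τ σ) (hZε : ∀ (z : Z) σ, ε (z • σ) = ε σ)
    (π : Z →* (H ≃ₗᵢ[ℝ] H)) (hvZ : ∀ (z : Z) σ, v (z • σ) = π z (v σ))
    (hvτ : ∀ σ, v (τ σ) = - v σ)
    (C : ℝ) (hLip : ∀ σ ρ, B σ ρ ≠ 0 → ‖v σ - v ρ‖ ≤ C)
    (hproper : ∀ R : ℝ, ∃ S : Finset E, ∀ σ, ‖v σ‖ ≤ R → ∃ z : Z, z • σ ∈ S)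
    (S : Finset E) (hS1 : ∀ s ∈ S, τ s = s)
    (hS2 : ∀ σ, τ σ = σ → ∃! s, s ∈ S ∧ ∃ z : Z, z • s = σ) :
    ∑ s ∈ S, γ s * ε s = 0 := by
  classical
  -- constants
  set C' : ℝ := max C 1 with hC'
  have hC0 : 0 < C' := lt_of_lt_of_le one_pos (le_max_right _ _)
  set s : ℝ := (C' * b + 1) / c with hs
  have hs0 : 0 < s := div_pos (by positivity) hc
  have hsc : s * c = C' * b + 1 := div_mul_cancel₀ _ hc.ne'
  set R0 : ℝ := C' + s * b with hR0
  have hR00 : 0 ≤ R0 := by positivity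
  have hLip' : ∀ σ ρ, B σ ρ ≠ 0 → ‖v σ - v ρ‖ ≤ C' := fun σ ρ h =>
    (hLip σ ρ h).trans (le_max_left _ _)
  let _ : MulAction Z (Sub v R0) := subAct v π hvZ R0
  have hcoe : ∀ (z : Z) (a : Sub v R0), ((z • a : Sub v R0) : E) = z • (a : E) := fun z a => rfl
  -- the operator
  let nb : Sub v R0 → Finset (Sub v R0) := fun σ =>
    insert σ ((nbr (σ : E)).subtype (fun σ => ‖v σ‖ ≤ R0))
  have hP : Prop' (kern B γ v s (fun σ => ‖v σ‖ ≤ R0)) nb := by
    constructor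
    · intro σ κ hne
      by_cases h : σ = κ
      · exact Finset.mem_insert.2 (Or.inl h.symm)
      · refine Finset.mem_insert.2 (Or.inr (Finset.mem_subtype.2 (hnbr _ _ ?_)))
        intro h0
        apply hne
        unfold kern
        rw [if_neg (fun h' => h (Subtype.ext h')), hsymm, h0, mul_zero, map_zero, add_zero]
    · intro σ κ
      unfold kern
      rw [reverse.map_add, reverse.commutes, hsymm]
      congr 1
      by_cases h : (σ : E) = κ
      · rw [if_pos h.symm, if_pos h, ← h, map_smul]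
        congr 1
        exact (reverse_ι _).symm
      · rw [if_neg h, if_neg (fun h' => h h'.symm), map_zero]
  have hfree' : ∀ (z : Z) (a : Sub v R0), z • a = a → z = 1 := fun z a h =>
    hfree z a (congrArg Subtype.val h)
  obtain ⟨S0, hS0⟩ := hproper R0
  obtain ⟨J, hJ⟩ : ∃ J : Finset (Sub v R0), Reps Z J := by
    apply exists_reps (S0.subtype (fun σ => ‖v σ‖ ≤ R0))
    intro a
    obtain ⟨z, hz⟩ := hS0 a a.2
    exact ⟨z, Finset.mem_subtype.2 hz⟩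
  have hZ : ∀ (z : Z) (σ ρ : Sub v R0), kern B γ v s (fun σ => ‖v σ‖ ≤ R0) (z • σ) (z • ρ)
      = al (π z) (kern B γ v s (fun σ => ‖v σ‖ ≤ R0) σ ρ) := by
    intro z σ ρ
    unfold kern
    rw [map_add, AlgHom.commutes, hcoe, hcoe, hZB]
    congr 1
    by_cases h : (σ : E) = ρ
    · rw [if_pos h, if_pos (by rw [h]), map_smul, al_cv, hvZ, hZγ]
    · rw [if_neg h, if_neg (fun h' => h (MulAction.injective z h')), map_zero]
  let τ' : Equiv.Perm (Sub v R0) := τ.subtypePerm (fun σ => by rw [hvτ, norm_neg])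
  have hτ'coe : ∀ a : Sub v R0, ((τ' a : Sub v R0) : E) = τ a := fun a => rfl
  let g : Sub v R0 → ℝ := fun σ => γ σ * ε σ
  have hanti : ∀ σ ρ : Sub v R0, g σ • kern B γ v s (fun σ => ‖v σ‖ ≤ R0) (τ' σ) (τ' ρ)
      = - (g ρ • kern B γ v s (fun σ => ‖v σ‖ ≤ R0) σ ρ) := by
    intro σ ρ
    have hε2 : ε σ * ε σ = 1 := by rcases hε σ with h | h <;> rw [h] <;> norm_num
    have h1 : g σ * (s * B (τ' σ) (τ' ρ)) = - (g ρ * (s * B σ ρ)) := by
      rw [hτ'coe, hτ'coe, hB]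
      change γ σ * ε σ * _ = - (γ ρ * ε ρ * _)
      by_cases h0 : B σ ρ = 0
      · rw [h0]; ring
      · rw [hodd σ ρ h0]
        linear_combination (- γ ρ * s * ε ρ * B σ ρ) * hε2
    unfold kern
    rw [smul_add, smul_add, neg_add, Algebra.smul_def (g σ) (algebraMap ℝ (Cl H) _), ← map_mul, h1,
      map_neg, Algebra.smul_def (g ρ) (algebraMap ℝ (Cl H) _), ← map_mul]
    congr 1
    by_cases h : (σ : E) = ρ
    · have h' : σ = ρ := Subtype.ext h
      subst h'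
      have e : cv (- v σ) = - cv (v σ) := map_neg _ _
      rw [if_pos rfl, if_pos rfl, hτ'coe, hvτ, hγτ, e, smul_neg, smul_neg]
    · rw [if_neg h, if_neg, smul_zero, smul_zero, neg_zero]
      intro h'
      exact h (τ.injective h')
  have hτZ : ∀ (z : Z) (σ : Sub v R0), τ' (z • σ) = z • τ' σ := fun z σ =>
    Subtype.ext (hZτ z σ)
  have hgZ : ∀ (z : Z) (σ : Sub v R0), g (z • σ) = g σ := by
    intro z σ
    change γ (z • (σ : E)) * ε (z • (σ : E)) = γ σ * ε σ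
    rw [hZγ, hZε]
  -- estimates
  have hLipsq : ∀ σ ρ, B σ ρ ≠ 0 → ⟪v σ - v ρ, v σ - v ρ⟫ ≤ C' ^ 2 := by
    intro σ ρ h
    rw [real_inner_self_eq_norm_sq]
    exact pow_le_pow_left₀ (norm_nonneg _) (hLip' σ ρ h) 2
  have hsup : ∀ x : Sub v R0 →₀ Cl H, ∃ (F S' : Finset E),
      F = x.support.map (Function.Embedding.subtype (fun σ => ‖v σ‖ ≤ R0)) ∧ F ⊆ S' ∧
      (∃ A' : Finset E, S' ⊆ A' ∧ (∀ ρ ∈ F, nbr ρ ⊆ A') ∧
        ∀ σ ∈ A' \ S', ¬ ‖v σ‖ ≤ R0) ∧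
      bt x x = ∑ ρ ∈ F, ip (ext0 x ρ) (ext0 x ρ) ∧
      bt (Top (kern B γ v s (fun σ => ‖v σ‖ ≤ R0)) nb x)
        (Top (kern B γ v s (fun σ => ‖v σ‖ ≤ R0)) nb x)
        = ∑ σ ∈ S', ip (TX B γ v s F (ext0 x) σ) (TX B γ v s F (ext0 x) σ) := by
    intro x
    set F : Finset E := x.support.map (Function.Embedding.subtype (fun σ => ‖v σ‖ ≤ R0)) with hF
    set A' : Finset E := F ∪ F.biUnion nbr with hA'
    set S' : Finset E := A'.filter (fun σ => ‖v σ‖ ≤ R0) with hS'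
    have hFmem : ∀ σ ∈ F, ‖v σ‖ ≤ R0 := by
      intro σ hσ
      obtain ⟨a, _, rfl⟩ := Finset.mem_map.1 hσ
      exact a.2
    refine ⟨F, S', rfl, ?_, ⟨A', Finset.filter_subset _ _, ?_, ?_⟩, ?_, ?_⟩
    · intro σ hσ
      exact Finset.mem_filter.2 ⟨Finset.mem_union_left _ hσ, hFmem σ hσ⟩
    · intro ρ hρ
      exact (Finset.subset_biUnion_of_mem nbr hρ).trans Finset.subset_union_right
    · intro σ hσ h
      rw [Finset.mem_sdiff] at hσ
      exact hσ.2 (Finset.mem_filter.2 ⟨hσ.1, h⟩)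
    · rw [bt_self_sum x x.support subset_rfl, sum_ext0 x (fun _ y => ip y y)]
    · have hsub : (Top (kern B γ v s (fun σ => ‖v σ‖ ≤ R0)) nb x).support
          ⊆ A'.subtype (fun σ => ‖v σ‖ ≤ R0) := by
        intro σ hσ
        rw [Finsupp.mem_support_iff] at hσ
        rw [Finset.mem_subtype]
        by_contra hn
        apply hσ
        rw [Top_kern hP]
        unfold TX
        have hσF : (σ : E) ∉ F := fun h => hn (Finset.mem_union_left _ h)
        rw [ext0_zero x σ hσF, mul_zero, smul_zero, add_zero]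
        have h0 : ∑ ρ ∈ F, B σ ρ • ext0 x ρ = 0 := by
          refine Finset.sum_eq_zero fun ρ hρ => ?_
          have : B σ ρ = 0 := by
            by_contra h1
            exact hn (Finset.mem_union_right _ (Finset.mem_biUnion.2 ⟨ρ, hρ, hnbr _ _ h1⟩))
          rw [this, zero_smul]
        rw [h0, smul_zero]
      rw [bt_self_sum _ _ hsub, hS', ← Finset.subtype_map, Finset.sum_map]
      refine Finset.sum_congr rfl fun σ _ => ?_
      rw [Top_kern hP]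
      rfl
  have hfar : ∀ (F S' A' : Finset E), (∀ σ ∈ A' \ S', ¬ ‖v σ‖ ≤ R0) →
      ∀ σ ∈ A' \ S', ∀ ρ ∈ F, B σ ρ ≠ 0 → (s * b) ^ 2 ≤ ⟪v ρ, v ρ⟫ := by
    intro F S' A' h σ hσ ρ _ hne
    rw [real_inner_self_eq_norm_sq]
    refine pow_le_pow_left₀ (by positivity) ?_ 2
    have h1 := h σ hσ
    push Not at h1
    have h2 := hLip' σ ρ hne
    have h3 : ‖v σ‖ ≤ ‖v σ - v ρ‖ + ‖v ρ‖ := by
      have := norm_add_le (v σ - v ρ) (v ρ)
      rwa [sub_add_cancel] at this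
    linarith
  have hlow : ∀ x : Sub v R0 →₀ Cl H, (s * (s * c - C' * b)) * bt x x
      ≤ bt (Top (kern B γ v s (fun σ => ‖v σ‖ ≤ R0)) nb x)
        (Top (kern B γ v s (fun σ => ‖v σ‖ ≤ R0)) nb x) := by
    intro x
    obtain ⟨F, S', hF, hFS, ⟨A', hSA, hnbA, hout⟩, e1, e2⟩ := hsup x
    rw [e1, e2]
    refine lower hsymm hγ hodd b hb0 hb C' hC0 hLipsq hs0 c F S' A' hFS hSA (ext0 x) ?_
      (hfar F S' A' hout) (gapCl B c F A' (gap F A' (hFS.trans hSA) hnbA) (ext0 x))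
    intro σ hσ
    rw [hF] at hσ
    exact ext0_zero x σ hσ
  have hupp : ∀ x : Sub v R0 →₀ Cl H, bt (Top (kern B γ v s (fun σ => ‖v σ‖ ≤ R0)) nb x)
        (Top (kern B γ v s (fun σ => ‖v σ‖ ≤ R0)) nb x)
      ≤ (2 * s ^ 2 * b ^ 2 + 2 * R0 ^ 2) * bt x x := by
    intro x
    obtain ⟨F, S', hF, hFS, _, e1, e2⟩ := hsup x
    rw [e1, e2]
    refine upper hsymm hγ b hb0 hb (R0 ^ 2) F S' hFS (ext0 x) ?_ ?_
    · intro σ hσ
      rw [hF] at hσ
      exact ext0_zero x σ hσ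
    · intro σ hσ
      rw [hF] at hσ
      obtain ⟨a, _, rfl⟩ := Finset.mem_map.1 hσ
      rw [real_inner_self_eq_norm_sq]
      exact pow_le_pow_left₀ (norm_nonneg _) a.2 2
  have hδ : 0 < s * (s * c - C' * b) := by
    rw [hsc]
    have : C' * b + 1 - C' * b = 1 := by ring
    rw [this, mul_one]
    exact hs0
  have hvan := vanish hP hfree' J hJ π hZ τ' g hanti hτZ hgZ _ _ hδ hlow hupp
  rw [← hvan, ← Finset.sum_filter]
  -- comparison of the representatives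
  have hmemA : ∀ σ, τ σ = σ → ‖v σ‖ ≤ R0 := by
    intro σ h
    have h1 := hvτ σ
    rw [h] at h1
    have h2 : v σ = 0 := by
      have h3 : (2 : ℝ) • v σ = 0 := by rw [two_smul]; nth_rewrite 1 [h1]; exact neg_add_cancel _
      exact (smul_eq_zero.1 h3).resolve_left two_ne_zero
    rw [h2, norm_zero]
    exact hR00
  have hto : ∀ σ ∈ S, ∃ j, j ∈ J.filter (fun j => τ' j = j) ∧ ∃ z : Z, z • (j : E) = σ := by
    intro σ hσ
    obtain ⟨j, ⟨hj, z, hz⟩, _⟩ := hJ ⟨σ, hmemA σ (hS1 σ hσ)⟩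
    have hz' : z • (j : E) = σ := congrArg Subtype.val hz
    refine ⟨j, Finset.mem_filter.2 ⟨hj, ?_⟩, z, hz'⟩
    apply MulAction.injective z
    apply Subtype.ext
    change z • τ (j : E) = z • (j : E)
    rw [← hZτ, hz', hS1 σ hσ]
  choose r hr1 hr2 using hto
  refine Finset.sum_bij (fun σ hσ => r σ hσ) (fun σ hσ => hr1 σ hσ) ?_ ?_ ?_
  · intro σ hσ ρ hρ h
    obtain ⟨z, hz⟩ := hr2 σ hσ
    obtain ⟨w, hw⟩ := hr2 ρ hρ
    have h1 : τ (r σ hσ : E) = r σ hσ := by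
      have := (Finset.mem_filter.1 (hr1 σ hσ)).2
      exact congrArg Subtype.val this
    refine (hS2 (r σ hσ : E) h1).unique
      ⟨hσ, z⁻¹, inv_smul_eq_iff.2 hz.symm⟩ ⟨hρ, w⁻¹, inv_smul_eq_iff.2 ?_⟩
    have h' : r σ hσ = r ρ hρ := h
    rw [h']
    exact hw.symm
  · intro j hj
    obtain ⟨hj1, hj2⟩ := Finset.mem_filter.1 hj
    obtain ⟨σ, ⟨hσ, z, hz⟩, _⟩ := hS2 (j : E) (congrArg Subtype.val hj2)
    refine ⟨σ, hσ, ?_⟩
    obtain ⟨w, hw⟩ := hr2 σ hσ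
    have h1 : (z * w) • r σ hσ = j := by
      apply Subtype.ext
      change (z * w) • (r σ hσ : E) = j
      rw [mul_smul, hw, hz]
    exact (hJ j).unique ⟨(Finset.mem_filter.1 (hr1 σ hσ)).1, _, h1⟩ ⟨hj1, 1, one_smul _ _⟩
  · intro σ hσ
    obtain ⟨z, hz⟩ := hr2 σ hσ
    change γ σ * ε σ = γ (r σ hσ : E) * ε (r σ hσ : E)
    have e1 : γ σ = γ (r σ hσ : E) := by
      have := hZγ z (r σ hσ : E)
      rwa [hz] at this
    have e2 : ε σ = ε (r σ hσ : E) := by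
      have := hZε z (r σ hσ : E)
      rwa [hz] at this
    rw [e1, e2]

end master

end Run7.h31.Inv
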