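import Pool.Agent.R778.ZSFinal
import Pool.Agent.Run7.h31.Inv.Master

set_option autoImplicit false

open scoped RealInnerProductSpace Topology

/-! Cellular automorphisms of the universal cover of a finite aspherical complex. -/

namespace Run7.h31.Inv

open Pool.Agent.H919R4.ZS (FinRes toRed)
open Pool.Agent.R778.ZS

variable {G : Type} [Group G] {X : FinRes G}

theorem main (φ : CellAut X)
    (Z : Type) [Group Z] [MulAction Z (Cell X)]
    (hfree : ∀ (z : Z) (σ : Cell X), z • σ = σ → z = 1)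
    (hinc : ∀ (z : Z) (σ ρ : Cell X), inc X (z • σ) (z • ρ) = inc X σ ρ)
    (hdim : ∀ (z : Z) (σ : Cell X), dim (z • σ) = dim σ)
    (hperm : ∀ (z : Z) (σ : Cell X), φ.perm (z • σ) = z • φ.perm σ)
    (hsign : ∀ (z : Z) (σ : Cell X), φ.sign (z • σ) = φ.sign σ)
    (H : Type) [NormedAddCommGroup H] [InnerProductSpace ℝ H]
    (π : Z →* (H ≃ₗᵢ[ℝ] H)) (β : Z → H) (f : Cell X → H)
    (hf : ∀ (z : Z) (σ : Cell X), f (z • σ) = π z (f σ) + β z)
    (hinv : ∀ σ, f (φ.perm (φ.perm σ)) = f σ)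
    (C : ℝ) (hC : ∀ σ ρ, inc X σ ρ ≠ 0 → ‖f σ - f ρ‖ ≤ C)
    (hp : ∀ R : ℝ, ∃ T : Finset (Cell X), ∀ σ, ‖f σ - f (φ.perm σ)‖ ≤ R → ∃ z : Z, z • σ ∈ T)
    (S : Finset (Cell X)) (hS : ∀ σ ∈ S, φ.perm σ = σ)
    (hS' : ∀ σ, φ.perm σ = σ → ∃! ρ, ρ ∈ S ∧ ∃ z : Z, z • ρ = σ)
    (hL : ∑ σ ∈ S, (-1 : ℤ) ^ dim σ * (φ.sign σ : ℤ) ≠ 0) :
    ∃ i ≤ X.len, Nontrivial (X.homology (toRed G) i) := by
  classical
  by_contra hcon
  push Not at hcon
  have hsub : ∀ i ≤ X.len, Subsingleton (X.homology (toRed G) i) := by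
    intro i hi
    exact not_nontrivial_iff_subsingleton.1 (not_nontrivial_iff_subsingleton.2 (hcon i hi))
  obtain ⟨c, hc, hgap⟩ := gap_cells X hsub
  have hincne : ∀ σ ρ, inc X σ ρ ≠ 0 → inc X (φ.perm σ) (φ.perm ρ) ≠ 0 := by
    intro σ ρ h
    rw [φ.inc_eq]
    exact mul_ne_zero (mul_ne_zero (Units.ne_zero _) (Units.ne_zero _)) h
  have hodd : ∀ σ ρ : Cell X, symB X σ ρ ≠ 0 → ((-1 : ℝ) ^ dim σ) = - (-1 : ℝ) ^ dim ρ := by
    intro σ ρ h
    by_cases h1 : inc X σ ρ = 0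
    · have h2 : inc X ρ σ ≠ 0 := by
        intro h2
        apply h
        rw [symB, h1, h2]; simp
      rw [dim_of_inc h2, pow_succ]; ring
    · rw [dim_of_inc h1, pow_succ]; ring
  have hLip0 : ∀ σ ρ, inc X σ ρ ≠ 0 →
      ‖(f σ - f (φ.perm σ)) - (f ρ - f (φ.perm ρ))‖ ≤ C + C := by
    intro σ ρ h
    have e : (f σ - f (φ.perm σ)) - (f ρ - f (φ.perm ρ))
        = (f σ - f ρ) - (f (φ.perm σ) - f (φ.perm ρ)) := by abel
    rw [e]
    exact (norm_sub_le _ _).trans (add_le_add (hC _ _ h) (hC _ _ (hincne _ _ h)))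
  have hLip : ∀ σ ρ, symB X σ ρ ≠ 0 →
      ‖(f σ - f (φ.perm σ)) - (f ρ - f (φ.perm ρ))‖ ≤ C + C := by
    intro σ ρ h
    by_cases h1 : inc X σ ρ = 0
    · have h2 : inc X ρ σ ≠ 0 := by
        intro h2
        apply h
        rw [symB, h1, h2]; simp
      rw [norm_sub_rev]
      exact hLip0 _ _ h2
    · exact hLip0 _ _ h1
  have hε : ∀ σ : Cell X, (((φ.sign σ : ℤ) : ℝ)) = 1 ∨ (((φ.sign σ : ℤ) : ℝ)) = -1 := by
    intro σ
    rcases Int.units_eq_one_or (φ.sign σ) with h | h <;> rw [h] <;> simp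
  have hB : ∀ σ ρ, symB X (φ.perm σ) (φ.perm ρ) = ((φ.sign σ : ℤ) : ℝ) * ((φ.sign ρ : ℤ) : ℝ) *
      symB X σ ρ := by
    intro σ ρ
    rw [symB, symB, φ.inc_eq, φ.inc_eq]
    push_cast
    ring
  have key := master (B := symB X) (γ := fun σ => (-1 : ℝ) ^ dim σ)
    (v := fun σ => f σ - f (φ.perm σ)) (Z := Z)
    (fun σ ρ => add_comm _ _) (fun σ => neg_one_pow_eq_or ℝ _) hodd
    (fun σ => ((φ.sign σ : ℤ) : ℝ)) hε φ.perm hB (fun σ => by rw [φ.dim_eq])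
    (fun ρ => (finite_nb X ρ).toFinset) (fun σ ρ h => (finite_nb X ρ).mem_toFinset.2 h)
    (2 * bnorm X) (by have := bnorm_nonneg X; linarith) (row_bound X) c hc hgap hfree
    (fun z σ ρ => by rw [symB, symB, hinc, hinc]) (fun z σ => by rw [hdim]) hperm
    (fun z σ => by rw [hsign]) π
    (fun z σ => by
      change f (z • σ) - f (φ.perm (z • σ)) = π z (f σ - f (φ.perm σ))
      rw [hperm, hf, hf, map_sub]
      abel)
    (fun σ => by
      change f (φ.perm σ) - f (φ.perm (φ.perm σ)) = - (f σ - f (φ.perm σ))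
      rw [hinv, neg_sub])
    (C + C) hLip hp S hS hS'
  apply hL
  have h2 : ((∑ σ ∈ S, (-1 : ℤ) ^ dim σ * (φ.sign σ : ℤ) : ℤ) : ℝ) = 0 := by
    push_cast
    exact key
  exact_mod_cast h2

end Run7.h31.Inv
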