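import Pool.Agent.Run7.h31.Inv.Cl

set_option autoImplicit false
set_option linter.unusedSectionVars false

open scoped RealInnerProductSpace Topology

/-! Powers of a contraction with respect to a positive semidefinite form. -/

namespace Run7.h31.Inv

section
variable {V : Type*} [AddCommGroup V] [Module ℝ V]

theorem cs (β : V →ₗ[ℝ] V →ₗ[ℝ] ℝ) (hs : ∀ x y, β x y = β y x) (hp : ∀ x, 0 ≤ β x x) (x y : V) :
    (β x y) ^ 2 ≤ β x x * β y y := by
  have h : ∀ t : ℝ, 0 ≤ β y y * (t * t) + (2 * β x y) * t + β x x := by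
    intro t
    have h1 := hp (x + t • y)
    simp only [map_add, map_smul, LinearMap.add_apply, LinearMap.smul_apply, smul_eq_mul] at h1
    rw [hs y x] at h1
    linarith
  have h2 := discrim_le_zero h
  unfold discrim at h2
  nlinarith

theorem contr (β : V →ₗ[ℝ] V →ₗ[ℝ] ℝ) (hs : ∀ x y, β x y = β y x) (hp : ∀ x, 0 ≤ β x x)
    (N : V →ₗ[ℝ] V) (hN : ∀ x y, β (N x) y = β x (N y)) (a : ℝ) (ha : 0 ≤ a)
    (h0 : ∀ x, 0 ≤ β (N x) x) (h1 : ∀ x, β (N x) x ≤ a * β x x) (x : V) :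
    β (N x) (N x) ≤ a ^ 2 * β x x := by
  have h2 := cs (β.comp N) (fun x y => by
    rw [LinearMap.comp_apply, LinearMap.comp_apply, hN, hs]) (fun x => h0 x) x (N x)
  simp only [LinearMap.comp_apply] at h2
  have h3 := h1 x
  have h4 := h1 (N x)
  have h5 := h0 x
  have h6 := h0 (N x)
  have h7 := hp x
  have h8 := hp (N x)
  by_contra hcon
  push Not at hcon
  have h9 : 0 < β (N x) (N x) := lt_of_le_of_lt (by positivity) hcon
  have h10 : β (N x) (N x) ^ 2 ≤ (a * β x x) * (a * β (N x) (N x)) :=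
    h2.trans (mul_le_mul h3 h4 h6 (by positivity))
  nlinarith

theorem contr_pow (β : V →ₗ[ℝ] V →ₗ[ℝ] ℝ) (hs : ∀ x y, β x y = β y x) (hp : ∀ x, 0 ≤ β x x)
    (N : V →ₗ[ℝ] V) (hN : ∀ x y, β (N x) y = β x (N y)) (a : ℝ) (ha : 0 ≤ a)
    (h0 : ∀ x, 0 ≤ β (N x) x) (h1 : ∀ x, β (N x) x ≤ a * β x x) (x : V) (n : ℕ) :
    β ((N ^ n) x) ((N ^ n) x) ≤ (a ^ 2) ^ n * β x x := by
  induction n with
  | zero => simp
  | succ n ih =>
    rw [pow_succ' N, Module.End.mul_apply]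
    refine (contr β hs hp N hN a ha h0 h1 _).trans ?_
    rw [pow_succ' (a ^ 2), mul_assoc]
    exact mul_le_mul_of_nonneg_left ih (by positivity)

/-- A constant sum of coefficients of the powers vanishes. -/
theorem sum_zero (β : V →ₗ[ℝ] V →ₗ[ℝ] ℝ) (hs : ∀ x y, β x y = β y x) (hp : ∀ x, 0 ≤ β x x)
    (T : V →ₗ[ℝ] V) (hT : ∀ x y, β (T x) y = β x (T y)) (δ K : ℝ) (hδ : 0 < δ)
    (h1 : ∀ x, δ * β x x ≤ β (T x) (T x)) (h2 : ∀ x, β (T x) (T x) ≤ K * β x x)
    {I : Type*} (J : Finset I) (y x : I → V) (g : I → ℝ) (L : ℝ)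
    (h : ∀ K' : ℝ, 0 < K' → ∀ n : ℕ,
      L = ∑ j ∈ J, g j * β (y j) (((1 - K'⁻¹ • (T * T)) ^ n) (x j))) : L = 0 := by
  set K' : ℝ := max K δ with hK'
  have hK0 : 0 < K' := lt_of_lt_of_le hδ (le_max_right _ _)
  set N : V →ₗ[ℝ] V := 1 - K'⁻¹ • (T * T) with hNdef
  have hNa : ∀ x, N x = x - K'⁻¹ • T (T x) := fun x => rfl
  have hN : ∀ x y, β (N x) y = β x (N y) := by
    intro x y
    rw [hNa, hNa, map_sub, map_sub, LinearMap.sub_apply, map_smul, map_smul,
      LinearMap.smul_apply, hT, hT]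
  set a : ℝ := 1 - K'⁻¹ * δ with ha
  have ha0 : 0 ≤ a := by
    rw [ha, sub_nonneg, inv_mul_le_iff₀ hK0, mul_one]
    exact le_max_right _ _
  have ha1 : a < 1 := by
    rw [ha]
    have : 0 < K'⁻¹ * δ := by positivity
    linarith
  have hNx : ∀ x, β (N x) x = β x x - K'⁻¹ * β (T x) (T x) := by
    intro x
    rw [hNa, map_sub, map_smul, LinearMap.sub_apply, LinearMap.smul_apply, smul_eq_mul, hT]
  have b0 : ∀ x, 0 ≤ β (N x) x := by
    intro x
    rw [hNx, sub_nonneg, inv_mul_le_iff₀ hK0]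
    exact (h2 x).trans (mul_le_mul_of_nonneg_right (le_max_left _ _) (hp x))
  have b1 : ∀ x, β (N x) x ≤ a * β x x := by
    intro x
    rw [hNx, ha]
    have := mul_le_mul_of_nonneg_left (h1 x) (inv_nonneg.2 hK0.le)
    linarith
  have ha2 : a ^ 2 < 1 := by nlinarith
  have hlim : ∀ j, Filter.Tendsto (fun n : ℕ => β (y j) ((N ^ n) (x j))) Filter.atTop (𝓝 0) := by
    intro j
    have hsq : Filter.Tendsto (fun n : ℕ => (β (y j) ((N ^ n) (x j))) ^ 2) Filter.atTop (𝓝 0) := by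
      have hup : Filter.Tendsto (fun n : ℕ => β (y j) (y j) * ((a ^ 2) ^ n * β (x j) (x j)))
          Filter.atTop (𝓝 0) := by
        have h3 := tendsto_pow_atTop_nhds_zero_of_lt_one (by positivity : (0 : ℝ) ≤ a ^ 2) ha2
        have h4 := (h3.mul_const (β (x j) (x j))).const_mul (β (y j) (y j))
        rwa [zero_mul, mul_zero] at h4
      refine squeeze_zero (fun n => sq_nonneg _) (fun n => ?_) hup
      refine (cs β hs hp _ _).trans (mul_le_mul_of_nonneg_left ?_ (hp _))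
      exact contr_pow β hs hp N hN a ha0 b0 b1 _ n
    have h5 := (Real.continuous_sqrt.tendsto _).comp hsq
    rw [Real.sqrt_zero] at h5
    have h6 : (Real.sqrt ∘ fun n : ℕ => (β (y j) ((N ^ n) (x j))) ^ 2)
        = fun n : ℕ => |β (y j) ((N ^ n) (x j))| := by
      funext n
      exact Real.sqrt_sq_eq_abs _
    rw [h6] at h5
    exact (tendsto_zero_iff_abs_tendsto_zero _).2 h5
  have hsum : Filter.Tendsto (fun n : ℕ => ∑ j ∈ J, g j * β (y j) ((N ^ n) (x j)))
      Filter.atTop (𝓝 0) := by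
    have h7 := tendsto_finsetSum J (fun j _ => (hlim j).const_mul (g j))
    simpa using h7
  have h8 : (fun n : ℕ => ∑ j ∈ J, g j * β (y j) ((N ^ n) (x j))) = fun _ => L := by
    funext n
    exact (h K' hK0 n).symm
  rw [h8] at hsum
  exact tendsto_nhds_unique tendsto_const_nhds hsum

end

end Run7.h31.Inv
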