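import Pool.Agent.Run7.h31.Inv.Neum

set_option autoImplicit false
set_option linter.unusedSectionVars false

open scoped RealInnerProductSpace Topology

/-! Operators of finite propagation with entries in the Clifford algebra. -/

namespace Run7.h31.Inv

open CliffordAlgebra

/-! ### the semidefinite form -/

section form
variable {H : Type*} [NormedAddCommGroup H] [InnerProductSpace ℝ H]

/-- the form `tc (x* y)` -/
noncomputable def ip : Cl H →ₗ[ℝ] Cl H →ₗ[ℝ] ℝ :=
  ((LinearMap.mul ℝ (Cl H)).compr₂ tc) ∘ₗ reverse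

theorem ip_apply (x y : Cl H) : ip x y = tc (reverse x * y) := rfl

theorem ip_symm (x y : Cl H) : ip x y = ip y x := by
  rw [ip_apply, ip_apply, ← (pos_rev (reverse y * x)).2, reverse.map_mul, reverse_reverse]

theorem ip_nonneg (x : Cl H) : 0 ≤ ip x x := (pos_rev x).1

theorem ip_cv (u : H) (x y : Cl H) : ip (cv u * x) y = ip x (cv u * y) := by
  rw [ip_apply, ip_apply, reverse.map_mul, reverse_ι, mul_assoc]

theorem ip_cv_cv (u : H) (x : Cl H) : ip (cv u * x) (cv u * x) = ⟪u, u⟫ * ip x x := by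
  rw [ip_cv, ← mul_assoc, cv_mul_self, ← Algebra.smul_def, map_smul, smul_eq_mul]

theorem ip_smul_smul (c : ℝ) (x : Cl H) : ip (c • x) (c • x) = c ^ 2 * ip x x := by
  rw [map_smul, map_smul, LinearMap.smul_apply, smul_eq_mul, smul_eq_mul]
  ring

theorem two_ip_le (x y : Cl H) : 2 * |ip x y| ≤ ip x x + ip y y := by
  have h1 := ip_nonneg (x - y)
  have h2 := ip_nonneg (x + y)
  simp only [map_sub, map_add, LinearMap.sub_apply, LinearMap.add_apply] at h1 h2
  rw [ip_symm y x] at h1 h2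
  rcases abs_cases (ip x y) with h | h <;> rw [h.1] <;> linarith

end form

/-! ### mass transport -/

section mass
variable {Z A : Type*} [Group Z] [MulAction Z A]

/-- representatives of the orbits -/
def Reps (Z : Type*) {A : Type*} [Group Z] [MulAction Z A] (J : Finset A) : Prop :=
  ∀ a : A, ∃! j, j ∈ J ∧ ∃ z : Z, z • j = a

/-- coordinates -/
noncomputable def repEquiv (hfree : ∀ (z : Z) (a : A), z • a = a → z = 1) (J : Finset A)
    (hJ : Reps Z J) : Z × J ≃ A :=
  Equiv.ofBijective (fun p => p.1 • (p.2 : A)) (by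
    constructor
    · rintro ⟨z, j⟩ ⟨z', j'⟩ h
      change z • (j : A) = z' • (j' : A) at h
      have h1 : (j : A) = j' := (hJ (z • (j : A))).unique ⟨j.2, z, rfl⟩ ⟨j'.2, z', h.symm⟩
      have h2 : j = j' := Subtype.ext h1
      subst h2
      have h3 : (z'⁻¹ * z) • (j : A) = j := by rw [mul_smul, h, inv_smul_smul]
      have h4 := hfree _ _ h3
      rw [inv_mul_eq_one] at h4
      rw [h4]
    · intro a
      obtain ⟨j, ⟨hj, z, hz⟩, _⟩ := hJ a
      exact ⟨(z, ⟨j, hj⟩), hz⟩)

theorem repEquiv_apply (hfree : ∀ (z : Z) (a : A), z • a = a → z = 1) (J : Finset A)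
    (hJ : Reps Z J) (p : Z × J) : repEquiv hfree J hJ p = p.1 • (p.2 : A) := rfl

theorem tsum_rep (hfree : ∀ (z : Z) (a : A), z • a = a → z = 1) (J : Finset A)
    (hJ : Reps Z J) (f : A → ℝ) (hf : f.support.Finite) :
    ∑' a, f a = ∑ k ∈ J, ∑' z : Z, f (z • k) := by
  have hs : Summable f := summable_of_hasFiniteSupport hf
  rw [← Equiv.tsum_eq (repEquiv hfree J hJ)]
  have hs2 : Summable (fun p : Z × J => f (repEquiv hfree J hJ p)) :=
    (Equiv.summable_iff (repEquiv hfree J hJ)).2 hs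
  rw [← Equiv.tsum_eq (Equiv.prodComm J Z) (fun p : Z × J => f (repEquiv hfree J hJ p))]
  have hs3 : Summable (fun c : J × Z => f (repEquiv hfree J hJ ((Equiv.prodComm J Z) c))) :=
    (Equiv.summable_iff (Equiv.prodComm J Z)).2 hs2
  rw [Summable.tsum_prod hs3, tsum_fintype, ← Finset.sum_coe_sort J]
  rfl

theorem mass_transport (hfree : ∀ (z : Z) (a : A), z • a = a → z = 1) (J : Finset A)
    (hJ : Reps Z J) (f : A → A → ℝ) (hf : ∀ (z : Z) (a b : A), f (z • a) (z • b) = f a b)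
    (h1 : ∀ a, {b | f a b ≠ 0}.Finite) (h2 : ∀ b, {a | f a b ≠ 0}.Finite) :
    ∑ j ∈ J, ∑' b, f j b = ∑ j ∈ J, ∑' a, f a j := by
  have e1 : ∀ j ∈ J, ∑' b, f j b = ∑ k ∈ J, ∑' z : Z, f j (z • k) :=
    fun j _ => tsum_rep hfree J hJ _ (h1 j)
  have e2 : ∀ j ∈ J, ∑' a, f a j = ∑ k ∈ J, ∑' z : Z, f (z • k) j :=
    fun j _ => tsum_rep hfree J hJ (fun a => f a j) (h2 j)
  rw [Finset.sum_congr rfl e1, Finset.sum_congr rfl e2, Finset.sum_comm]
  refine Finset.sum_congr rfl fun k _ => Finset.sum_congr rfl fun j _ => ?_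
  rw [← Equiv.tsum_eq (Equiv.inv Z)]
  refine tsum_congr fun z => ?_
  rw [Equiv.inv_apply, ← hf z, smul_inv_smul]

end mass

/-! ### operators -/

section op
variable {H : Type*} [NormedAddCommGroup H] [InnerProductSpace ℝ H]
variable {A : Type*}

/-- the data of an operator of finite propagation -/
structure Prop' (Tk : A → A → Cl H) (nb : A → Finset A) : Prop where
  nb : ∀ σ κ, Tk σ κ ≠ 0 → κ ∈ nb σ
  symm : ∀ σ κ, Tk κ σ = reverse (Tk σ κ)

variable {Tk : A → A → Cl H} {nb : A → Finset A}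

theorem Prop'.nb' (h : Prop' Tk nb) (σ κ : A) (hne : Tk σ κ ≠ 0) : σ ∈ nb κ := by
  apply h.nb
  rw [h.symm]
  intro h0
  apply hne
  have := congrArg (reverse (Q := QH H)) h0
  rwa [reverse_reverse, map_zero] at this

variable (Tk nb)

/-- the operator -/
noncomputable def Top : (A →₀ Cl H) →ₗ[ℝ] (A →₀ Cl H) :=
  Finsupp.lsum ℝ fun κ => ∑ σ ∈ nb κ, (Finsupp.lsingle σ) ∘ₗ (LinearMap.mulLeft ℝ (Tk σ κ))

variable {Tk nb}

theorem Top_single (κ : A) (y : Cl H) :
    Top Tk nb (Finsupp.single κ y) = ∑ σ ∈ nb κ, Finsupp.single σ (Tk σ κ * y) := by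
  unfold Top
  rw [Finsupp.lsum_single, LinearMap.sum_apply]
  rfl

theorem Top_apply (h : Prop' Tk nb) (x : A →₀ Cl H) (σ : A) :
    Top Tk nb x σ = x.sum fun κ y => Tk σ κ * y := by
  classical
  induction x using Finsupp.induction_linear with
  | zero => rw [map_zero, Finsupp.sum_zero_index]; rfl
  | add f g hf hg =>
    rw [map_add, Finsupp.add_apply, hf, hg, Finsupp.sum_add_index']
    · intro a; exact mul_zero _
    · intro a b c; exact mul_add _ _ _
  | single κ y =>
    rw [Top_single, Finsupp.finsetSum_apply, Finsupp.sum_single_index (mul_zero _)]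
    simp only [Finsupp.single_apply]
    rw [Finset.sum_ite_eq' (nb κ) σ (fun σ => Tk σ κ * y)]
    by_cases hm : σ ∈ nb κ
    · rw [if_pos hm]
    · rw [if_neg hm]
      have : Tk σ κ = 0 := by
        by_contra h0
        exact hm (h.nb' σ κ h0)
      rw [this, zero_mul]

variable (Tk nb) in
/-- the entries of the powers -/
noncomputable def ent (m : ℕ) (σ ρ : A) : Cl H := ((Top Tk nb) ^ m) (Finsupp.single ρ 1) σ

theorem right_lin (h : Prop' Tk nb) (m : ℕ) (κ : A) (y : Cl H) (σ : A) :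
    ((Top Tk nb) ^ m) (Finsupp.single κ y) σ = ent Tk nb m σ κ * y := by
  classical
  unfold ent
  induction m generalizing σ with
  | zero =>
    rw [pow_zero, Module.End.one_apply, Module.End.one_apply, Finsupp.single_apply,
      Finsupp.single_apply]
    by_cases hh : κ = σ
    · rw [if_pos hh, if_pos hh, one_mul]
    · rw [if_neg hh, if_neg hh, zero_mul]
  | succ m ih =>
    rw [pow_succ', Module.End.mul_apply, Module.End.mul_apply, Top_apply h, Top_apply h]
    have e : ((Top Tk nb) ^ m) (Finsupp.single κ y)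
        = Finsupp.mapRange (fun c => c * y) (zero_mul y)
          (((Top Tk nb) ^ m) (Finsupp.single κ 1)) := by
      ext τ
      rw [Finsupp.mapRange_apply]
      exact ih τ
    rw [e, Finsupp.sum_mapRange_index (h := fun κ' y' => Tk σ κ' * y') (fun a => mul_zero _),
      Finsupp.sum_mul]
    refine Finset.sum_congr rfl fun κ' _ => ?_
    exact (mul_assoc _ _ _).symm

theorem ent_succ_left (h : Prop' Tk nb) (m : ℕ) (σ ρ : A) :
    ent Tk nb (m + 1) σ ρ = ∑ κ ∈ nb σ, Tk σ κ * ent Tk nb m κ ρ := by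
  classical
  unfold ent
  rw [pow_succ', Module.End.mul_apply, Top_apply h]
  unfold Finsupp.sum
  set x := ((Top Tk nb) ^ m) (Finsupp.single ρ 1)
  have s1 : ∑ κ ∈ x.support, Tk σ κ * x κ = ∑ κ ∈ x.support ∪ nb σ, Tk σ κ * x κ := by
    apply Finset.sum_subset Finset.subset_union_left
    intro κ _ hκ
    rw [Finsupp.notMem_support_iff.1 hκ, mul_zero]
  have s2 : ∑ κ ∈ nb σ, Tk σ κ * x κ = ∑ κ ∈ x.support ∪ nb σ, Tk σ κ * x κ := by
    apply Finset.sum_subset Finset.subset_union_right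
    intro κ _ hκ
    have : Tk σ κ = 0 := by
      by_contra h0
      exact hκ (h.nb σ κ h0)
    rw [this, zero_mul]
  exact s1.trans s2.symm

theorem ent_succ_right (h : Prop' Tk nb) (m : ℕ) (σ ρ : A) :
    ent Tk nb (m + 1) σ ρ = ∑ κ ∈ nb ρ, ent Tk nb m σ κ * Tk κ ρ := by
  classical
  have e : ent Tk nb (m + 1) σ ρ = ((Top Tk nb) ^ m) (Top Tk nb (Finsupp.single ρ 1)) σ := by
    unfold ent
    rw [pow_succ, Module.End.mul_apply]
  rw [e, Top_single, map_sum, Finsupp.finsetSum_apply]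
  refine Finset.sum_congr rfl fun κ _ => ?_
  rw [right_lin h, mul_one]

/-- the form on vectors -/
noncomputable def bt : (A →₀ Cl H) →ₗ[ℝ] (A →₀ Cl H) →ₗ[ℝ] ℝ :=
  Finsupp.lsum ℝ fun σ => (LinearMap.lcomp ℝ ℝ (Finsupp.lapply σ)) ∘ₗ ip

theorem bt_apply (x y : A →₀ Cl H) : bt x y = x.sum fun σ a => ip a (y σ) := by
  unfold bt
  rw [Finsupp.lsum_apply]
  unfold Finsupp.sum
  rw [LinearMap.sum_apply]
  rfl

theorem bt_single (σ : A) (a : Cl H) (y : A →₀ Cl H) : bt (Finsupp.single σ a) y = ip a (y σ) := by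
  rw [bt_apply, Finsupp.sum_single_index]
  rw [map_zero, LinearMap.zero_apply]

theorem bt_symm (x y : A →₀ Cl H) : bt x y = bt y x := by
  classical
  induction x using Finsupp.induction_linear with
  | zero => rw [map_zero, map_zero, LinearMap.zero_apply]
  | add f g hf hg => rw [map_add, map_add, LinearMap.add_apply, hf, hg]
  | single κ a =>
    induction y using Finsupp.induction_linear with
    | zero => rw [map_zero, map_zero, LinearMap.zero_apply]
    | add f g hf hg => rw [map_add, map_add, LinearMap.add_apply, hf, hg]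
    | single κ' a' =>
      rw [bt_single, bt_single, Finsupp.single_apply, Finsupp.single_apply]
      by_cases h : κ = κ'
      · subst h
        rw [if_pos rfl, if_pos rfl, ip_symm]
      · rw [if_neg h, if_neg (fun h' => h h'.symm), map_zero, map_zero]

theorem bt_nonneg (x : A →₀ Cl H) : 0 ≤ bt x x := by
  rw [bt_apply]
  exact Finset.sum_nonneg fun σ _ => ip_nonneg _

theorem bt_Top (h : Prop' Tk nb) (x y : A →₀ Cl H) :
    bt (Top Tk nb x) y = bt x (Top Tk nb y) := by
  classical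
  have key : ∀ κ a κ' a', bt (Top Tk nb (Finsupp.single κ a)) (Finsupp.single κ' a')
      = ip (Tk κ' κ * a) a' := by
    intro κ a κ' a'
    rw [bt_symm, bt_single, Top_apply h, Finsupp.sum_single_index (mul_zero _), ip_symm]
  induction x using Finsupp.induction_linear with
  | zero => rw [map_zero, map_zero, LinearMap.zero_apply, LinearMap.zero_apply]
  | add f g hf hg => rw [map_add, map_add, map_add, LinearMap.add_apply, LinearMap.add_apply, hf, hg]
  | single κ a =>
    induction y using Finsupp.induction_linear with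
    | zero => rw [map_zero, map_zero, map_zero]
    | add f g hf hg => rw [map_add, map_add, map_add, hf, hg]
    | single κ' a' =>
      rw [key, bt_symm, key, h.symm κ' κ, ip_symm _ a, ip_apply, ip_apply, reverse.map_mul,
        mul_assoc]

end op

/-! ### the trace argument -/

section trace
variable {H : Type*} [NormedAddCommGroup H] [InnerProductSpace ℝ H]
variable {A : Type*} {Tk : A → A → Cl H} {nb : A → Finset A}
variable {Z : Type*} [Group Z] [MulAction Z A]

theorem sum_left (h : Prop' Tk nb) (σ : A) (y : A → Cl H) :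
    ∑ κ ∈ nb σ, Tk σ κ * y κ = ∑ᶠ κ, Tk σ κ * y κ := by
  symm
  apply finsum_eq_sum_of_support_subset
  intro κ hκ
  apply h.nb
  intro h0
  apply hκ
  change Tk σ κ * y κ = 0
  rw [h0, zero_mul]

theorem ent_smul (h : Prop' Tk nb) (π : Z →* (H ≃ₗᵢ[ℝ] H))
    (hZ : ∀ (z : Z) (σ ρ : A), Tk (z • σ) (z • ρ) = al (π z) (Tk σ ρ)) (m : ℕ) (z : Z) (σ ρ : A) :
    ent Tk nb m (z • σ) (z • ρ) = al (π z) (ent Tk nb m σ ρ) := by
  classical
  induction m generalizing σ with
  | zero =>
    unfold ent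
    rw [pow_zero, Module.End.one_apply, Module.End.one_apply, Finsupp.single_apply,
      Finsupp.single_apply]
    by_cases hh : ρ = σ
    · rw [if_pos hh, if_pos (by rw [hh]), map_one]
    · rw [if_neg hh, if_neg (fun h' => hh (MulAction.injective z h')), map_zero]
  | succ m ih =>
    rw [ent_succ_left h, ent_succ_left h, sum_left h, sum_left h,
      ← finsum_comp_equiv (MulAction.toPerm z)]
    have hfin : (Function.support fun κ => Tk σ κ * ent Tk nb m κ ρ).Finite := by
      apply (nb σ).finite_toSet.subset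
      intro κ hκ
      apply h.nb
      intro h0
      apply hκ
      change Tk σ κ * _ = 0
      rw [h0, zero_mul]
    have h1 := AddMonoidHom.map_finsum ((al (π z) : Cl H →ₐ[ℝ] Cl H) : Cl H →+ Cl H) hfin
    change _ = ((al (π z) : Cl H →ₐ[ℝ] Cl H) : Cl H →+ Cl H) _
    rw [h1]
    refine finsum_congr fun κ => ?_
    change Tk (z • σ) (z • κ) * ent Tk nb m (z • κ) (z • ρ) =
      al (π z) (Tk σ κ * ent Tk nb m κ ρ)
    rw [hZ, ih, map_mul]

theorem tsum_left (h : Prop' Tk nb) (σ : A) (y : A → Cl H) :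
    tc (∑ κ ∈ nb σ, Tk σ κ * y κ) = ∑' κ, tc (Tk σ κ * y κ) := by
  rw [map_sum]
  symm
  apply tsum_eq_sum
  intro κ hκ
  have : Tk σ κ = 0 := by
    by_contra h0
    exact hκ (h.nb σ κ h0)
  rw [this, zero_mul, map_zero]

theorem tsum_right (h : Prop' Tk nb) (ρ : A) (y : A → Cl H) :
    tc (∑ κ ∈ nb ρ, y κ * Tk κ ρ) = ∑' κ, tc (y κ * Tk κ ρ) := by
  rw [map_sum]
  symm
  apply tsum_eq_sum
  intro κ hκ
  have : Tk κ ρ = 0 := by
    by_contra h0
    exact hκ (h.nb' κ ρ h0)
  rw [this, mul_zero, map_zero]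

theorem trace_ent (h : Prop' Tk nb) (hfree : ∀ (z : Z) (a : A), z • a = a → z = 1)
    (J : Finset A) (hJ : Reps Z J) (π : Z →* (H ≃ₗᵢ[ℝ] H))
    (hZ : ∀ (z : Z) (σ ρ : A), Tk (z • σ) (z • ρ) = al (π z) (Tk σ ρ))
    (τ : Equiv.Perm A) (g : A → ℝ)
    (hanti : ∀ σ ρ, g σ • Tk (τ σ) (τ ρ) = - (g ρ • Tk σ ρ))
    (hτ : ∀ (z : Z) (σ : A), τ (z • σ) = z • τ σ) (hg : ∀ (z : Z) (σ : A), g (z • σ) = g σ)
    (m : ℕ) : ∑ j ∈ J, g j * tc (ent Tk nb (m + 1) (τ j) j) = 0 := by
  set f : A → A → ℝ := fun j ρ => g ρ * tc (ent Tk nb m (τ ρ) j * Tk j ρ) with hf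
  have e1 : ∀ j, g j * tc (ent Tk nb (m + 1) (τ j) j) = - ∑' ρ, f j ρ := by
    intro j
    rw [ent_succ_left h, tsum_left h, ← tsum_mul_left, ← Equiv.tsum_eq τ, ← tsum_neg]
    refine tsum_congr fun ρ => ?_
    have h1 : g j * tc (Tk (τ j) (τ ρ) * ent Tk nb m (τ ρ) j)
        = tc ((g j • Tk (τ j) (τ ρ)) * ent Tk nb m (τ ρ) j) := by
      rw [smul_mul_assoc, map_smul, smul_eq_mul]
    rw [h1, hanti, neg_mul, map_neg, smul_mul_assoc, map_smul, smul_eq_mul, hf, tc_comm]
  have e2 : ∀ j, g j * tc (ent Tk nb (m + 1) (τ j) j) = ∑' ρ, f ρ j := by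
    intro j
    rw [ent_succ_right h, tsum_right h, ← tsum_mul_left]
  have hmt := mass_transport hfree J hJ f (by
    intro z a b
    rw [hf]
    change g (z • b) * tc (ent Tk nb m (τ (z • b)) (z • a) * Tk (z • a) (z • b)) = _
    rw [hg, hτ, ent_smul h π hZ, hZ, ← map_mul, tc_al]) (by
    intro a
    apply (nb a).finite_toSet.subset
    intro b hb
    apply h.nb
    intro h0
    apply hb
    change g b * tc (_ * Tk a b) = 0
    rw [h0, mul_zero, map_zero, mul_zero]) (by
    intro b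
    apply (nb b).finite_toSet.subset
    intro a ha
    apply h.nb'
    intro h0
    apply ha
    change g b * tc (_ * Tk a b) = 0
    rw [h0, mul_zero, map_zero, mul_zero])
  have s1 : ∑ j ∈ J, g j * tc (ent Tk nb (m + 1) (τ j) j) = - ∑ j ∈ J, ∑' ρ, f j ρ := by
    rw [← Finset.sum_neg_distrib]
    exact Finset.sum_congr rfl fun j _ => e1 j
  have s2 : ∑ j ∈ J, g j * tc (ent Tk nb (m + 1) (τ j) j) = ∑ j ∈ J, ∑' ρ, f ρ j :=
    Finset.sum_congr rfl fun j _ => e2 j
  linarith

/-- the vanishing theorem -/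
theorem vanish (h : Prop' Tk nb) (hfree : ∀ (z : Z) (a : A), z • a = a → z = 1)
    (J : Finset A) (hJ : Reps Z J) (π : Z →* (H ≃ₗᵢ[ℝ] H))
    (hZ : ∀ (z : Z) (σ ρ : A), Tk (z • σ) (z • ρ) = al (π z) (Tk σ ρ))
    (τ : Equiv.Perm A) (g : A → ℝ)
    (hanti : ∀ σ ρ, g σ • Tk (τ σ) (τ ρ) = - (g ρ • Tk σ ρ))
    (hτ : ∀ (z : Z) (σ : A), τ (z • σ) = z • τ σ) (hg : ∀ (z : Z) (σ : A), g (z • σ) = g σ)
    (δ K : ℝ) (hδ : 0 < δ)
    (h1 : ∀ x, δ * bt x x ≤ bt (Top Tk nb x) (Top Tk nb x))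
    (h2 : ∀ x, bt (Top Tk nb x) (Top Tk nb x) ≤ K * bt x x) [DecidableEq A] :
    ∑ j ∈ J, (if τ j = j then g j else 0) = 0 := by
  set L : ℝ := ∑ j ∈ J, (if τ j = j then g j else 0) with hL
  set T := Top Tk nb with hT
  have hip : ∀ (y : A →₀ Cl H) (σ : A), bt (Finsupp.single σ 1) y = tc (y σ) := by
    intro y σ
    rw [bt_single, ip_apply, reverse.map_one, one_mul]
  have hpow : ∀ m : ℕ, ∑ j ∈ J, g j * bt (Finsupp.single (τ j) (1 : Cl H))
      ((T ^ (m + 1)) (Finsupp.single j 1)) = 0 := by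
    intro m
    rw [← trace_ent h hfree J hJ π hZ τ g hanti hτ hg m]
    refine Finset.sum_congr rfl fun j _ => ?_
    rw [hip]
    rfl
  have h0 : ∑ j ∈ J, g j * bt (Finsupp.single (τ j) (1 : Cl H))
      ((T ^ 0) (Finsupp.single j 1)) = L := by
    rw [hL]
    refine Finset.sum_congr rfl fun j _ => ?_
    rw [hip, pow_zero, Module.End.one_apply, Finsupp.single_apply]
    by_cases hh : τ j = j
    · rw [if_pos hh, if_pos hh.symm, tc_one, mul_one]
    · rw [if_neg hh, if_neg (fun h' => hh h'.symm), map_zero, mul_zero]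
  apply sum_zero bt bt_symm bt_nonneg T (bt_Top h) δ K hδ h1 h2 J
    (fun j => Finsupp.single (τ j) (1 : Cl H)) (fun j => Finsupp.single j (1 : Cl H)) g
  intro K' _ n
  have key : ∀ (n k : ℕ), ∑ j ∈ J, g j * bt (Finsupp.single (τ j) (1 : Cl H))
      ((T ^ k * (1 - K'⁻¹ • (T * T)) ^ n) (Finsupp.single j 1)) = if k = 0 then L else 0 := by
    intro n
    induction n with
    | zero =>
      intro k
      rcases k with _ | k
      · rw [if_pos rfl, ← h0]
        refine Finset.sum_congr rfl fun j _ => ?_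
        rw [pow_zero, pow_zero, mul_one]
      · rw [if_neg (Nat.succ_ne_zero k), ← hpow k]
        refine Finset.sum_congr rfl fun j _ => ?_
        rw [pow_zero, mul_one]
    | succ n ih =>
      intro k
      have e : T ^ k * (1 - K'⁻¹ • (T * T)) ^ (n + 1)
          = T ^ k * (1 - K'⁻¹ • (T * T)) ^ n
            - K'⁻¹ • (T ^ (k + 2) * (1 - K'⁻¹ • (T * T)) ^ n) := by
        apply LinearMap.ext
        intro x
        have hN : ∀ y, (1 - K'⁻¹ • (T * T) : (A →₀ Cl H) →ₗ[ℝ] (A →₀ Cl H)) y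
            = y - K'⁻¹ • T (T y) := fun y => rfl
        rw [pow_succ' (1 - K'⁻¹ • (T * T)) n, Module.End.mul_apply, Module.End.mul_apply, hN,
          map_sub, map_smul, pow_succ T (k + 1), pow_succ T k]
        rfl
      have h3 := ih k
      have h4 := ih (k + 2)
      rw [if_neg (by omega)] at h4
      rw [← h3]
      have h5 : ∀ j ∈ J, g j * bt (Finsupp.single (τ j) (1 : Cl H))
          ((T ^ k * (1 - K'⁻¹ • (T * T)) ^ (n + 1)) (Finsupp.single j 1))
          = g j * bt (Finsupp.single (τ j) (1 : Cl H))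
            ((T ^ k * (1 - K'⁻¹ • (T * T)) ^ n) (Finsupp.single j 1))
          - K'⁻¹ * (g j * bt (Finsupp.single (τ j) (1 : Cl H))
            ((T ^ (k + 2) * (1 - K'⁻¹ • (T * T)) ^ n) (Finsupp.single j 1))) := by
        intro j _
        rw [e, LinearMap.sub_apply, LinearMap.smul_apply, map_sub, map_smul, smul_eq_mul]
        ring
      rw [Finset.sum_congr rfl h5, Finset.sum_sub_distrib, ← Finset.mul_sum, h4, mul_zero,
        sub_zero]
  have h6 := key n 0
  rw [if_pos rfl] at h6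
  rw [← h6]
  refine Finset.sum_congr rfl fun j _ => ?_
  rw [pow_zero, one_mul]

end trace

end Run7.h31.Inv
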